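import Pool.Agent.Lib.MP_6947cd_al.LR.Spec
import Pool.Agent.Lib.MP_6947cd_al.B.CV

set_option autoImplicit false

open MeasureTheory ProbabilityTheory Set Matrix
open scoped ENNReal ComplexConjugate ComplexOrder

namespace CholLR

open MPf1e3 (cg G GM nsq)

open MPf1e3.G1 MPf1e3.G2 in
theorem specCVO : SpecCVO := by
  intro n lam hl F hF
  have h := CholB.CVM.tilt_pi (fun _ : Fin n => cg) (fun k z => (Real.sqrt (1 + lam k) : ℂ) * z)
    (fun _ => by fun_prop) (fun k z => ENNReal.ofReal (Real.exp (-(lam k / 2) * ‖z‖ ^ 2)))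
    (fun _ => by fun_prop) (fun k => Real.toNNReal (1 / (1 + lam k)))
    (fun k g hg => CholB.CVM.tilt1 (lam k) (hl k) g hg) F hF
  have e1 : ∀ y : Fin n → ℂ, ENNReal.ofReal (Real.exp (-(∑ k, lam k * ‖y k‖ ^ 2) / 2))
      = ∏ k, ENNReal.ofReal (Real.exp (-(lam k / 2) * ‖y k‖ ^ 2)) := by
    intro y
    rw [← ENNReal.ofReal_prod_of_nonneg fun i _ => (Real.exp_pos _).le, ← Real.exp_sum]
    congr 2
    rw [neg_div, Finset.sum_div, ← Finset.sum_neg_distrib]
    refine Finset.sum_congr rfl fun k _ => ?_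
    ring
  have e2 : ENNReal.ofReal (∏ k, (1 + lam k)) * ∏ k, ((Real.toNNReal (1 / (1 + lam k)) : NNReal) : ℝ≥0∞)
      = 1 := by
    have e3 : (∏ k, ((Real.toNNReal (1 / (1 + lam k)) : NNReal) : ℝ≥0∞))
        = ENNReal.ofReal (∏ k, (1 / (1 + lam k))) := by
      rw [ENNReal.ofReal_prod_of_nonneg fun i _ => by
        have := hl i
        positivity]
      rfl
    rw [e3, ← ENNReal.ofReal_mul (Finset.prod_nonneg fun k _ => by
      have := hl k
      positivity), ← Finset.prod_mul_distrib]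
    have e4 : ∏ k, ((1 + lam k) * (1 / (1 + lam k))) = 1 := by
      refine Finset.prod_eq_one fun k _ => ?_
      have := hl k
      rw [mul_one_div, div_self (by positivity)]
    rw [e4, ENNReal.ofReal_one]
  simp_rw [e1]
  unfold G
  rw [h, ← mul_assoc, e2, one_mul]

end CholLR
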