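import Mathlib

/-!
Problem MP_6947cd_al (Chollet), LOW RANK, second part (captain helper95): rank `≤ n / 4`.

The same proof as in `LR/Spec.lean`, with a better upper bound for `per (A ∘ conj A)` (TSB) instead of
Minc's bound.  Conventions as there: file `LR/XXX.lean`, namespace `CholLR`, theorem `specXXX`, own
lemmas in `CholLR.XXXM`.
-/

set_option autoImplicit false

open MeasureTheory Set Matrix

namespace CholLR

/-- TSB, 140 lines.  Imports `Pool.Agent.Lib.MP_6947cd_al.EntropicInt` (and this file).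
PROOF.  `Ent.permanent_le_exp` with the certificate `x = M`: it is enough that
`Ent.ell univ (M i) j ≤ (1/2) log ((R^2 + 4 R + 1)/6)`, `R = ∑ j, M i j`, if `M i j ≠ 0`.  By
`Ent.ell_le_split` with `H = ∅`, `R = univ.erase j` (`bern u ∅ g = g ∅`, `bern_empty`):
`ell ≤ ∫ u in 0..1, log (M i j + u (R - M i j))`, and `M i j (1 - u) + u R ≤ 1 - u + u R`, so this is
`≤ ∫ u in 0..1, log (1 + u b)`, `b = R - 1 ≥ 0`.  For `b = 0` this is `0 = (1/2) log 1`.  For `b > 0` it is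
`(1 + 1/b) log (1 + b) - 1` (`integral_log` after substitution, or the derivative in `u` of
`((1 + u b) log (1 + u b) - u b)/b`).  Claim: `D(b) = (1/2) log (1 + b + b^2/6) - (1 + 1/b) log (1 + b) + 1
≥ 0` (note `(R^2 + 4 R + 1)/6 = 1 + b + b^2/6`): `D(b) → 0` for `b → 0`, and
`D'(b) = (log (1 + b) - 3 b (2 + b)/(6 + 6 b + b^2))/b^2 ≥ 0`, because
`E(b) = log (1 + b) - 3 b (2 + b)/(6 + 6 b + b^2)` has `E(0) = 0`, `E'(b) = b^4/((1 + b)(6 + 6 b + b^2)^2)`.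
(To avoid the limit: multiply by `b`: `b D(b)` vanishes at `0`, with derivative
`D(b) + b D'(b)`; or: `Q(b) = 2 b D(b) = b log (1 + b + b^2/6) - 2 (1 + b) log (1 + b) + 2 b`, `Q(0) = 0`,
`Q'(b) = log (1 + b + b^2/6) + b (1 + b/3)/(1 + b + b^2/6) - 2 log (1 + b)`, `Q'(0) = 0`, and
`Q''(b)` is a rational function with nonnegative numerator.) -/
def SpecTSB : Prop := ∀ (n : ℕ) (M : Matrix (Fin n) (Fin n) ℝ), (∀ i j, 0 ≤ M i j) →
  (∀ i j, M i j ≤ 1) → (∀ i, 1 ≤ ∑ j, M i j) →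
  M.permanent ≤ Real.exp (∑ i, 1 / 2 * Real.log (((∑ j, M i j) ^ 2 + 4 * (∑ j, M i j) + 1) / 6))

/-- NUMB, 120 lines.  May import `Pool.Agent.Lib.Interval.Gamma` (`gamma_lt : γ < 0.577216`).
PROOF.  Each term is `F (x i)`,
`F x = 2 (1 + x) log (1 + 1/x) - 2 - 2 γ + (1/2) log 6 + log x - (1/2) log (1 + 4 x + x^2)` (`x > 0`).
`F' x = 2 log (1 + 1/x) - 2/x + 1/x - (2 + x)/(1 + 4 x + x^2)`,
`F'' x = (1 - x)/(x^2 (1 + x)) + (7 + 4 x + x^2)/(1 + 4 x + x^2)^2 ≥ 0` for `0 < x ≤ 1`.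
So `F'` is increasing on `(0, 1]`; `F' (1/4) = 2 log 5 - 4 - 12/11 < 0`; hence
`F x ≥ F (1/4) + F' (1/4) (x - 1/4)` for `0 < x ≤ 1` (convexity, or the mean value theorem on both sides
of `1/4`), and the sum is `≥ n F (1/4) + F' (1/4) (∑ x_i - n/4) ≥ n F (1/4)`.
`F (1/4) = (5/2) log 5 - 2 - 2 γ + (1/2) log 6 - 2 log 2 - (1/2) log (33/16)
= (5/2) log 5 - (1/2) log (11/2) - 2 - 2 γ` (`log 6 - 4 log 2 - log 33 + 4 log 2 = - log (11/2)`)
`= 4.02359 - 0.85237 - 2 - 1.15443 = 0.01679 > 0` (enough: `log 5 ≥ 1.609`, `log (11/2) ≤ 1.705`: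
`4.0225 - 0.8525 - 2 - 1.154432 = 0.0155`). -/
def SpecNUMB : Prop := ∀ (n : ℕ) (x : Fin n → ℝ), (∀ i, 0 < x i) → (∀ i, x i ≤ 1) →
  4 * ∑ i, x i ≤ n →
  0 ≤ ∑ i, (2 * ((1 + x i) * Real.log (1 + 1 / x i) - 1 - Real.eulerMascheroniConstant)
    - 1 / 2 * Real.log (((1 / x i) ^ 2 + 4 * (1 / x i) + 1) / 6))

end CholLR
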