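import Pool.Agent.Lib.MP_6947cd_al.LR.Spec
import Pool.Agent.Lib.MP_6947cd_al.LR.SpecB
import Pool.Agent.Lib.MP_6947cd_al.B.Lieb
import Pool.Agent.Lib.MP_6947cd_al.RankTwoMain

/-!
Problem MP_6947cd_al (Chollet), LOW RANK: assembly (rank at most `n / 4`).
-/

set_option autoImplicit false

open MeasureTheory ProbabilityTheory Set Matrix
open scoped ENNReal ComplexConjugate ComplexOrder Matrix

namespace CholLR

open Pool.Agent.Lib.MP_6947cd_al

namespace FINBM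

theorem entry_le_one {n : ℕ} (W : Matrix (Fin n) (Fin n) ℂ) (hd : ∀ i, (W * Wᴴ) i i = 1)
    (i j : Fin n) : ‖(W * Wᴴ) i j‖ ≤ 1 := by
  have h1 : ∀ i, ∑ k, ‖W i k‖ ^ 2 = 1 := by
    intro i
    have h := hd i
    rw [Matrix.mul_apply] at h
    have e : ∑ k, W i k * Wᴴ k i = ((∑ k, ‖W i k‖ ^ 2 : ℝ) : ℂ) := by
      push_cast
      refine Finset.sum_congr rfl fun k _ => ?_
      rw [Matrix.conjTranspose_apply, Complex.star_def, Complex.mul_conj, Complex.normSq_eq_norm_sq]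
      push_cast
      rfl
    rw [e] at h
    exact_mod_cast h
  rw [Matrix.mul_apply]
  calc ‖∑ k, W i k * Wᴴ k j‖ ≤ ∑ k, ‖W i k * Wᴴ k j‖ := norm_sum_le _ _
    _ ≤ ∑ k, (‖W i k‖ ^ 2 + ‖W j k‖ ^ 2) / 2 := by
      refine Finset.sum_le_sum fun k _ => ?_
      rw [norm_mul, Matrix.conjTranspose_apply, norm_star]
      nlinarith [sq_nonneg (‖W i k‖ - ‖W j k‖)]
    _ = 1 := by
      rw [← Finset.sum_div, Finset.sum_add_distrib, h1, h1]
      norm_num

theorem perT_eq {n : ℕ} (A : Matrix (Fin n) (Fin n) ℂ) (hA : A.IsHermitian) :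
    (A ⊙ Aᵀ).permanent.re = (Matrix.of fun i j => ‖A i j‖ ^ 2 : Matrix (Fin n) (Fin n) ℝ).permanent := by
  rw [permanent_hadamard_transpose hA]
  unfold permanent
  refine Finset.sum_congr rfl fun σ _ => ?_
  rw [← Finset.prod_pow]
  rfl

theorem unit_case (hLOG : SpecLOG) (hCVO : SpecCVO) (hJEO : SpecLOG → SpecCVO → SpecJEO)
    (hSPC : SpecSPC) (hTSB : SpecTSB) (hNUMB : SpecNUMB)
    (n : ℕ) (A : Matrix (Fin n) (Fin n) ℂ) (hA : A.PosSemidef) (hd : ∀ i, A i i = 1)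
    (hr : 4 * ∑ i, 1 / (∑ j, ‖A i j‖ ^ 2) ≤ (n : ℝ)) :
    (A ⊙ Aᵀ).permanent.re ≤ A.permanent.re ^ 2 := by
  obtain ⟨W, lam, hl, hW, hsum, hK, hR1, hlog, hrk⟩ := hSPC n A hA hd
  set R : Fin n → ℝ := fun i => ∑ j, ‖A i j‖ ^ 2 with hR
  have hR0 : ∀ i, 0 < R i := fun i => lt_of_lt_of_le one_pos (hR1 i)
  have hper : 1 ≤ A.permanent.re := CholB.one_le_permanent A hA hd
  have hper0 : 0 < A.permanent.re := by linarith
  have h1 := hJEO hLOG hCVO n W lam (fun i => 1 + R i) hl (fun i => (hK i).symm)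
    (fun i => by have := hR0 i; positivity) (by rw [hW]; exact hper0)
  rw [hW, hsum] at h1
  have h2 := hNUMB n (fun i => 1 / R i) (fun i => by have := hR0 i; positivity)
    (fun i => by rw [div_le_one (hR0 i)]; exact hR1 i) hr
  have h3 : ∀ i, (2 * ((1 + 1 / R i) * Real.log (1 + 1 / (1 / R i)) - 1 - Real.eulerMascheroniConstant)
      - 1 / 2 * Real.log (((1 / (1 / R i)) ^ 2 + 4 * (1 / (1 / R i)) + 1) / 6))
      = 2 * (Real.log (1 + R i) - Real.eulerMascheroniConstant) + 2 * (Real.log (1 + R i) / R i) - 2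
        - 1 / 2 * Real.log ((R i ^ 2 + 4 * R i + 1) / 6) := by
    intro i
    have := (hR0 i).ne'
    rw [one_div_one_div]
    field_simp
    ring
  simp only [h3] at h2
  rw [Finset.sum_sub_distrib, Finset.sum_sub_distrib, Finset.sum_add_distrib, ← Finset.mul_sum,
    ← Finset.mul_sum] at h2
  have h4 : ∑ i, 1 / 2 * Real.log ((R i ^ 2 + 4 * R i + 1) / 6) ≤ 2 * Real.log A.permanent.re := by
    have h5 : ∑ _i : Fin n, (2 : ℝ) = 2 * n := by
      rw [Finset.sum_const, Finset.card_univ, Fintype.card_fin, nsmul_eq_mul]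
      ring
    have h6 : ∑ i, Real.log (1 + R i) / R i ≤ ∑ k, Real.log (1 + lam k) := hlog
    rw [h5] at h2
    linarith
  rw [perT_eq A hA.1]
  refine (hTSB n (Matrix.of fun i j => ‖A i j‖ ^ 2) (fun i j => by rw [Matrix.of_apply]; positivity)
    (fun i j => ?_) (fun i => by simpa only [Matrix.of_apply] using hR1 i)).trans ?_
  · rw [Matrix.of_apply]
    have h7 := entry_le_one W (by rw [hW]; exact hd) i j
    rw [hW] at h7
    exact pow_le_one₀ (norm_nonneg _) h7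
  · simp only [Matrix.of_apply]
    calc Real.exp (∑ i, 1 / 2 * Real.log (((∑ j, ‖A i j‖ ^ 2) ^ 2 + 4 * (∑ j, ‖A i j‖ ^ 2) + 1) / 6))
        ≤ Real.exp (2 * Real.log A.permanent.re) := Real.exp_le_exp.2 h4
      _ = A.permanent.re ^ 2 := by
        rw [two_mul, Real.exp_add, Real.exp_log hper0, pow_two]

/-- Normalisation to the diagonal entries `1`. -/
theorem normalise {n : ℕ} (A : Matrix (Fin n) (Fin n) ℂ) (hA : A.PosSemidef)
    (h0 : ∀ i, A i i ≠ 0) : ∃ A' : Matrix (Fin n) (Fin n) ℂ, A'.PosSemidef ∧ (∀ i, A' i i = 1) ∧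
      A'.rank ≤ A.rank ∧
      (∀ i j, ‖A' i j‖ ^ 2 = ‖A i j‖ ^ 2 / ((A i i).re * (A j j).re)) ∧
      ((A' ⊙ A'ᵀ).permanent.re ≤ A'.permanent.re ^ 2 →
        (A ⊙ Aᵀ).permanent.re ≤ A.permanent.re ^ 2) := by
  have hdiag : ∀ i, 0 < (A i i).re ∧ A i i = ((A i i).re : ℂ) := by
    intro i
    obtain ⟨hre, him⟩ := Complex.nonneg_iff.mp (hA.diag_nonneg (i := i))
    have h2 : A i i = ((A i i).re : ℂ) := by
      apply Complex.ext
      · simp
      · simp [← him]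
    refine ⟨lt_of_le_of_ne hre fun h => h0 i ?_, h2⟩
    rw [h2, ← h]; simp
  set s : Fin n → ℝ := fun i => Real.sqrt (A i i).re with hs
  have hspos : ∀ i, 0 < s i := fun i => Real.sqrt_pos.mpr (hdiag i).1
  have hs2 : ∀ i, s i * s i = (A i i).re := fun i => Real.mul_self_sqrt (hdiag i).1.le
  set D : Matrix (Fin n) (Fin n) ℂ := diagonal fun i => (((s i)⁻¹ : ℝ) : ℂ) with hD
  have hA' := hA.conjTranspose_mul_mul_same D
  set A' := Dᴴ * A * D with hA'def
  have hA'apply : ∀ i j, A' i j = (((s i)⁻¹ : ℝ) : ℂ) * A i j * (((s j)⁻¹ : ℝ) : ℂ) := by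
    intro i j
    rw [hA'def, hD, diagonal_conjTranspose, Matrix.mul_diagonal, Matrix.diagonal_mul]
    simp only [Pi.star_apply, Complex.star_def, Complex.conj_ofReal]
  have hr' : A'.rank ≤ A.rank :=
    (rank_mul_le_left _ _).trans (rank_mul_le_right _ _)
  have hunit : ∀ i, A' i i = 1 := by
    intro i
    rw [hA'apply, (hdiag i).2, ← hs2]
    have : ((s i : ℝ) : ℂ) ≠ 0 := by exact_mod_cast (hspos i).ne'
    push_cast
    field_simp
  refine ⟨A', hA', hunit, hr', ?_, ?_⟩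
  · intro i j
    rw [hA'apply, norm_mul, norm_mul, Complex.norm_real, Complex.norm_real, Real.norm_eq_abs,
      Real.norm_eq_abs, abs_of_pos (inv_pos.2 (hspos i)), abs_of_pos (inv_pos.2 (hspos j)),
      ← hs2 i, ← hs2 j]
    have h1 := (hspos i).ne'
    have h2 := (hspos j).ne'
    field_simp
  intro hmain
  have hAs : A = Matrix.of fun i j => (s i : ℂ) * (s j : ℂ) * A' i j := by
    ext i j
    rw [Matrix.of_apply, hA'apply]
    have h1 : ((s i : ℝ) : ℂ) ≠ 0 := by exact_mod_cast (hspos i).ne'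
    have h2 : ((s j : ℝ) : ℂ) ≠ 0 := by exact_mod_cast (hspos j).ne'
    push_cast
    field_simp
  have hp1 : A.permanent.re = (∏ i, s i) ^ 2 * A'.permanent.re := by
    rw [hAs, permanent_scale, ← Complex.ofReal_prod, ← Complex.ofReal_pow, Complex.re_ofReal_mul]
  have hp2 : (A ⊙ Aᵀ).permanent.re = (∏ i, s i ^ 2) ^ 2 * (A' ⊙ A'ᵀ).permanent.re := by
    have : A ⊙ Aᵀ = Matrix.of fun i j => ((s i ^ 2 : ℝ) : ℂ) * ((s j ^ 2 : ℝ) : ℂ) *
        (A' ⊙ A'ᵀ) i j := by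
      ext i j
      rw [hAs]
      simp only [hadamard_apply, transpose_apply, Matrix.of_apply]
      push_cast
      ring
    rw [this, permanent_scale, ← Complex.ofReal_prod, ← Complex.ofReal_pow, Complex.re_ofReal_mul]
  rw [hp1, hp2, mul_pow, Finset.prod_pow]
  exact mul_le_mul_of_nonneg_left hmain (by positivity)

/-- Chollet's inequality for `B = conj A`, small rank or large row sums. -/
theorem low_rank_conj (hLOG : SpecLOG) (hCVO : SpecCVO) (hJEO : SpecLOG → SpecCVO → SpecJEO)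
    (hSPC : SpecSPC) (hTSB : SpecTSB) (hNUMB : SpecNUMB) (n : ℕ) (A : Matrix (Fin n) (Fin n) ℂ)
    (hA : A.PosSemidef)
    (hr : 4 * A.rank ≤ n ∨ (∀ i, A i i ≠ 0) ∧
      4 * ∑ i, (∑ j, ‖A i j‖ ^ 2 / ((A i i).re * (A j j).re))⁻¹ ≤ (n : ℝ)) :
    (A ⊙ Aᵀ).permanent.re ≤ A.permanent.re ^ 2 := by
  by_cases h0 : ∃ i, A i i = 0
  · obtain ⟨i, hi⟩ := h0
    have h1 : (A ⊙ Aᵀ).permanent = 0 := by
      unfold permanent
      refine Finset.sum_eq_zero fun σ _ => Finset.prod_eq_zero (Finset.mem_univ i) ?_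
      rw [hadamard_apply, col_eq_zero hA i hi, zero_mul]
    rw [h1]
    simpa using sq_nonneg _
  push Not at h0
  obtain ⟨A', hA', hunit, hrk, hent, himp⟩ := normalise A hA h0
  refine himp (unit_case hLOG hCVO hJEO hSPC hTSB hNUMB n A' hA' hunit ?_)
  rcases hr with hr | ⟨_, hr⟩
  · obtain ⟨_, _, _, _, _, _, _, _, h5⟩ := hSPC n A' hA' hunit
    have h6 : (4 : ℝ) * (A'.rank : ℝ) ≤ n := by
      have : 4 * A'.rank ≤ n := by omega
      exact_mod_cast this
    linarith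
  · simpa only [hent, one_div] using hr

end FINBM

/-- Chollet's inequality for matrices of rank at most `n / 4` or with large normalised row sums. -/
theorem low_rankB (hLOG : SpecLOG) (hCVO : SpecCVO) (hJEO : SpecLOG → SpecCVO → SpecJEO)
    (hSPC : SpecSPC) (hTSB : SpecTSB) (hNUMB : SpecNUMB) (n : ℕ) (A B : Matrix (Fin n) (Fin n) ℂ)
    (hA : A.PosSemidef) (hB : B.PosSemidef)
    (hrA : 4 * A.rank ≤ n ∨ (∀ i, A i i ≠ 0) ∧
      4 * ∑ i, (∑ j, ‖A i j‖ ^ 2 / ((A i i).re * (A j j).re))⁻¹ ≤ (n : ℝ))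
    (hrB : 4 * B.rank ≤ n ∨ (∀ i, B i i ≠ 0) ∧
      4 * ∑ i, (∑ j, ‖B i j‖ ^ 2 / ((B i i).re * (B j j).re))⁻¹ ≤ (n : ℝ)) :
    (A ⊙ B).permanent ≤ A.permanent * B.permanent :=
  chollet_of_conj A B hA hB (FINBM.low_rank_conj hLOG hCVO hJEO hSPC hTSB hNUMB n A hA hrA)
    (FINBM.low_rank_conj hLOG hCVO hJEO hSPC hTSB hNUMB n B hB hrB)

end CholLR
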