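import Pool.Agent.Lib.MP_6947cd_al.LR.Spec
import Pool.Agent.Lib.MP_6947cd_al.B.Wick
import Pool.Agent.Lib.MP_6947cd_al.B.GSum
import Pool.Agent.Lib.MP_6947cd_al.B.Jen

/-!
Problem MP_6947cd_al (Chollet), low rank, module JEO: the Gaussian trial law with covariance `1 + A`.
-/

set_option autoImplicit false

open MeasureTheory ProbabilityTheory Set Matrix
open scoped ENNReal ComplexConjugate ComplexOrder

namespace CholLR

open MPf1e3 (cg G GM nsq)

namespace JEOM

instance instCg : IsProbabilityMeasure cg := MPf1e3.specProb.cg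

/-- the logarithm of the squared norm of a scaled Gaussian -/
theorem scaled (hLOG : SpecLOG) (K : ℝ) (hK : 0 < K) :
    Integrable (fun w : ℂ => Real.log (‖w‖ ^ 2 / 2)) (cg.map fun z => (Real.sqrt K : ℂ) * z) ∧
    ∫ w, Real.log (‖w‖ ^ 2 / 2) ∂(cg.map fun z => (Real.sqrt K : ℂ) * z)
      = Real.log K - Real.eulerMascheroniConstant ∧
    (cg.map fun z => (Real.sqrt K : ℂ) * z) {0} = 0 := by
  obtain ⟨h1, h2, h3⟩ := hLOG
  have hm : Measurable fun z : ℂ => (Real.sqrt K : ℂ) * z := by fun_prop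
  have hf : Measurable fun w : ℂ => Real.log (‖w‖ ^ 2 / 2) :=
    Real.measurable_log.comp (by fun_prop)
  have hne : ∀ᵐ z ∂cg, z ≠ 0 := by
    rw [ae_iff]
    have : {a : ℂ | ¬ a ≠ 0} = {0} := by
      ext a
      simp
    rw [this]
    exact h3
  have he : (fun z : ℂ => Real.log (‖(Real.sqrt K : ℂ) * z‖ ^ 2 / 2)) =ᵐ[cg]
      fun z => Real.log K + Real.log (‖z‖ ^ 2 / 2) := by
    filter_upwards [hne] with z hz
    have hz' : 0 < ‖z‖ := norm_pos_iff.2 hz
    rw [norm_mul, mul_pow, Complex.norm_real, Real.norm_eq_abs, sq_abs, Real.sq_sqrt hK.le,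
      mul_div_assoc, Real.log_mul hK.ne' (by positivity)]
  refine ⟨?_, ?_, ?_⟩
  · rw [integrable_map_measure hf.aestronglyMeasurable hm.aemeasurable]
    exact (((integrable_const (Real.log K)).add h1).congr he.symm)
  · rw [integral_map hm.aemeasurable hf.aestronglyMeasurable, integral_congr_ae he,
      integral_add (integrable_const _) h1, h2, integral_const]
    simp
    ring
  · rw [Measure.map_apply hm (measurableSet_singleton _)]
    have : (fun z : ℂ => (Real.sqrt K : ℂ) * z) ⁻¹' {0} = {0} := by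
      ext z
      have hs : (Real.sqrt K : ℂ) ≠ 0 := by exact_mod_cast (Real.sqrt_pos.2 hK).ne'
      simp [hs]
    rw [this]
    exact h3

theorem perm_eq (n : ℕ) (B : Matrix (Fin n) (Fin n) ℂ) :
    (B.submatrix (fun i : (Finset.univ : Finset (Fin n)) => (i : Fin n))
      (fun i : (Finset.univ : Finset (Fin n)) => (i : Fin n))).permanent = B.permanent := by
  unfold Matrix.permanent
  refine Fintype.sum_equiv (Equiv.permCongr
    (Equiv.subtypeUnivEquiv (p := fun x : Fin n => x ∈ (Finset.univ : Finset (Fin n)))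
      (fun x => Finset.mem_univ x))) _ _ fun σ => ?_
  refine Fintype.prod_equiv
    (Equiv.subtypeUnivEquiv (p := fun x : Fin n => x ∈ (Finset.univ : Finset (Fin n)))
      (fun x => Finset.mem_univ x)) _ _ fun i => ?_
  simp [Equiv.permCongr_apply]

end JEOM

open JEOM in
theorem specJEO (hLOG : SpecLOG) (hCVO : SpecCVO) : SpecJEO := by
  intro n W lam K hlam hK hKpos hper
  have iG : IsProbabilityMeasure (G n) := MPf1e3.specProb.G n
  have hlp : ∀ k, 0 < 1 + lam k := fun k => by linarith [hlam k]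
  set D : Matrix (Fin n) (Fin n) ℂ := Matrix.of fun i u => W i u * (Real.sqrt (1 + lam u) : ℂ)
    with hD
  have hDK : ∀ i, ∑ u, ‖D i u‖ ^ 2 = K i := by
    intro i
    rw [hK i]
    refine Finset.sum_congr rfl fun u _ => ?_
    rw [hD, Matrix.of_apply, norm_mul, mul_pow, Complex.norm_real, Real.norm_eq_abs, sq_abs,
      Real.sq_sqrt (hlp u).le]
  have hmap : ∀ i, (G n).map (fun a => ∑ u, D i u * a u)
      = cg.map fun z => (Real.sqrt (K i) : ℂ) * z := by
    intro i
    rw [CholB.GSumM.map_lin n (D i), hDK i]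
  have hml : ∀ i, Measurable fun a : Fin n → ℂ => ∑ u, D i u * a u := fun i => by fun_prop
  have hf : Measurable fun w : ℂ => Real.log (‖w‖ ^ 2 / 2) :=
    Real.measurable_log.comp (by fun_prop)
  have iX : ∀ i, Integrable (fun h : Fin n → ℂ => Real.log (‖∑ u, D i u * h u‖ ^ 2 / 2)) (G n) := by
    intro i
    have h1 := (scaled hLOG (K i) (hKpos i)).1
    rw [← hmap i, integrable_map_measure hf.aestronglyMeasurable (hml i).aemeasurable] at h1
    exact h1
  have vX : ∀ i, ∫ h : Fin n → ℂ, Real.log (‖∑ u, D i u * h u‖ ^ 2 / 2) ∂(G n)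
      = Real.log (K i) - Real.eulerMascheroniConstant := by
    intro i
    have h1 := (scaled hLOG (K i) (hKpos i)).2.1
    rw [← hmap i, integral_map (hml i).aemeasurable hf.aestronglyMeasurable] at h1
    exact h1
  have nX : ∀ᵐ h ∂(G n), ∀ i, ∑ u, D i u * h u ≠ 0 := by
    rw [ae_all_iff]
    intro i
    have h1 := (scaled hLOG (K i) (hKpos i)).2.2
    rw [← hmap i, Measure.map_apply (hml i) (measurableSet_singleton _)] at h1
    rw [ae_iff]
    refine measure_mono_null ?_ h1
    intro a ha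
    simpa using ha
  -- the marginals
  have hev : ∀ k, MeasurePreserving (fun h : Fin n → ℂ => h k) (G n) cg := by
    intro k
    exact measurePreserving_eval (fun _ : Fin n => cg) k
  have iN : ∀ k, Integrable (fun h : Fin n → ℂ => ‖h k‖ ^ 2) (G n) := by
    intro k
    have h1 := CholB.WickM.int_pow 1
    simp only [pow_one] at h1
    exact (hev k).integrable_comp_of_integrable h1
  have vN : ∀ k, ∫ h : Fin n → ℂ, ‖h k‖ ^ 2 ∂(G n) = 2 := by
    intro k
    have h1 := CholB.WickM.val_pow 1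
    simp only [pow_one, Nat.factorial_one, Nat.cast_one, mul_one] at h1
    rw [← h1, ← (hev k).map_eq, integral_map (hev k).measurable.aemeasurable
      (by fun_prop)]
  -- the exponent
  set X : (Fin n → ℂ) → ℝ := fun h =>
    ∑ i, Real.log (‖∑ u, D i u * h u‖ ^ 2 / 2) - (∑ k, lam k * ‖h k‖ ^ 2) / 2 with hX
  have iS1 : Integrable (fun h : Fin n → ℂ => ∑ i, Real.log (‖∑ u, D i u * h u‖ ^ 2 / 2)) (G n) :=
    integrable_finsetSum _ fun i _ => iX i
  have iS2 : Integrable (fun h : Fin n → ℂ => (∑ k, lam k * ‖h k‖ ^ 2) / 2) (G n) :=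
    (integrable_finsetSum _ fun k _ => (iN k).const_mul (lam k)).div_const 2
  have iXX : Integrable X (G n) := iS1.sub iS2
  have vXX : ∫ h, X h ∂(G n) =
      (∑ i, (Real.log (K i) - Real.eulerMascheroniConstant)) - ∑ k, lam k := by
    rw [hX, integral_sub iS1 iS2, integral_finsetSum _ fun i _ => iX i, integral_div,
      integral_finsetSum _ fun k _ => (iN k).const_mul (lam k)]
    simp_rw [vX, integral_const_mul, vN]
    rw [← Finset.sum_mul, mul_div_assoc]
    norm_num
  -- Wick and the change of variables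
  have hWick := CholB.specWick n W Finset.univ
  rw [perm_eq] at hWick
  have mF : Measurable fun a : Fin n → ℂ =>
      ENNReal.ofReal (∏ i ∈ Finset.univ, (‖∑ u, W i u * a u‖ ^ 2 / 2)) := by
    refine Measurable.ennreal_ofReal ?_
    refine Finset.measurable_fun_prod _ fun i _ => ?_
    fun_prop
  rw [hCVO n lam hlam _ mF] at hWick
  have hcongr : ∫⁻ h : Fin n → ℂ, ENNReal.ofReal (∏ i ∈ Finset.univ,
        (‖∑ u, W i u * ((Real.sqrt (1 + lam u) : ℂ) * h u)‖ ^ 2 / 2)) *
        ENNReal.ofReal (Real.exp (-(∑ k, lam k * ‖h k‖ ^ 2) / 2)) ∂(G n)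
      = ∫⁻ h, ENNReal.ofReal (Real.exp (X h)) ∂(G n) := by
    refine lintegral_congr_ae ?_
    filter_upwards [nX] with h hh
    have e1 : ∀ i, ∑ u, W i u * ((Real.sqrt (1 + lam u) : ℂ) * h u) = ∑ u, D i u * h u := by
      intro i
      refine Finset.sum_congr rfl fun u _ => ?_
      rw [hD, Matrix.of_apply]
      ring
    simp_rw [e1]
    have hpos : ∀ i, 0 < ‖∑ u, D i u * h u‖ ^ 2 / 2 := fun i => by
      have := norm_pos_iff.2 (hh i)
      positivity
    rw [← ENNReal.ofReal_mul (Finset.prod_nonneg fun i _ => (hpos i).le), hX]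
    congr 1
    simp only
    rw [Real.exp_sub, Real.exp_sum, Finset.prod_congr rfl fun i _ => Real.exp_log (hpos i),
      neg_div, Real.exp_neg]
    rfl
  have hJ := CholB.JenM.jensen (G n) X iXX
  have h5 : ENNReal.ofReal (∏ k, (1 + lam k)) * ENNReal.ofReal (Real.exp (∫ h, X h ∂(G n)))
      ≤ ENNReal.ofReal (W * Wᴴ).permanent.re := by
    rw [← hWick, hcongr]
    exact mul_le_mul_right hJ _
  have hP : 0 < ∏ k, (1 + lam k) := Finset.prod_pos fun k _ => hlp k
  rw [← ENNReal.ofReal_mul hP.le, ENNReal.ofReal_le_ofReal_iff hper.le] at h5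
  have h6 := Real.log_le_log (mul_pos hP (Real.exp_pos _)) h5
  rw [Real.log_mul hP.ne' (Real.exp_pos _).ne', Real.log_exp,
    Real.log_prod fun k _ => (hlp k).ne', vXX] at h6
  linarith

end CholLR
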