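import Pool.Agent.Lib.MP_6947cd_al.LR.NUMB

/-!
Problem MP_6947cd_al (Chollet), LOW RANK, module NUMC: the two functions of one variable for a pair of
matrices (`F` of NUMB, and `H` with the weight `7/5` in place of `2` on the lower bound).
-/

set_option autoImplicit false

open MeasureTheory Set Matrix

namespace CholLR

namespace NUMCM

open NUMBM

/-- the lower bound of a row, `x = 1 / R` -/
noncomputable def lo (x : ℝ) : ℝ := (1 + x) * Real.log (1 + 1 / x) - 1 - Real.eulerMascheroniConstant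

/-- the upper bound of a row -/
noncomputable def up (x : ℝ) : ℝ := 1 / 2 * Real.log (((1 / x) ^ 2 + 4 * (1 / x) + 1) / 6)

/-- the gain of a row -/
noncomputable def F (x : ℝ) : ℝ := 2 * lo x - up x

/-- the second gain of a row -/
noncomputable def H (x : ℝ) : ℝ := 7 / 5 * lo x - up x

lemma up_eq {x : ℝ} (hx : 0 < x) :
    up x = 1 / 2 * Real.log (1 + 4 * x + x ^ 2) - Real.log x - 1 / 2 * Real.log 6 := by
  have hq := q_pos hx
  have e : ((1 / x) ^ 2 + 4 * (1 / x) + 1) / 6 = (1 + 4 * x + x ^ 2) / (x * x * 6) := by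
    field_simp
  unfold up
  rw [e, Real.log_div hq.ne' (by positivity), Real.log_mul (by positivity) (by norm_num),
    Real.log_mul hx.ne' hx.ne']
  ring

lemma F_eq {x : ℝ} (hx : 0 < x) :
    F x = g x - 2 - 2 * Real.eulerMascheroniConstant + 1 / 2 * Real.log 6 := by
  unfold F
  rw [up_eq hx]
  unfold lo g
  ring

/-- the second function -/
noncomputable def k (x : ℝ) : ℝ :=
  (7 / 5 + 7 / 5 * x) * Real.log (1 + 1 / x) + Real.log x - 1 / 2 * Real.log (1 + 4 * x + x ^ 2)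

/-- its derivative -/
noncomputable def k' (x : ℝ) : ℝ :=
  7 / 5 * Real.log (1 + 1 / x) - 2 / 5 * (1 / x) - (2 + x) / (1 + 4 * x + x ^ 2)

/-- its second derivative -/
noncomputable def k'' (x : ℝ) : ℝ :=
  (2 / 5 - x) / (x ^ 2 * (1 + x)) + (7 + 4 * x + x ^ 2) / (1 + 4 * x + x ^ 2) ^ 2

lemma H_eq {x : ℝ} (hx : 0 < x) :
    H x = k x - 7 / 5 - 7 / 5 * Real.eulerMascheroniConstant + 1 / 2 * Real.log 6 := by
  unfold H
  rw [up_eq hx]
  unfold lo k
  ring

lemma deriv_k {x : ℝ} (hx : 0 < x) : HasDerivAt k (k' x) x := by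
  have h1 : HasDerivAt (fun y : ℝ => 7 / 5 + 7 / 5 * y) (7 / 5) x := by
    have := ((hasDerivAt_id x).const_mul (7 / 5)).const_add (7 / 5)
    simpa using this
  have h2 := h1.mul (deriv_log hx)
  have h3 := Real.hasDerivAt_log hx.ne'
  have h4 := ((deriv_q x).log (q_pos hx).ne').const_mul (1 / 2)
  have h5 := (h2.add h3).sub h4
  have e : k' x = 7 / 5 * Real.log (1 + 1 / x) + (7 / 5 + 7 / 5 * x) * (-(1 / (x * (1 + x)))) + x⁻¹ -
      1 / 2 * ((4 + 2 * x) / (1 + 4 * x + x ^ 2)) := by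
    unfold k'
    have hx1 : (1 + x) ≠ 0 := by positivity
    have hq := (q_pos hx).ne'
    field_simp
    ring
  rw [e]
  exact h5

lemma deriv_k' {x : ℝ} (hx : 0 < x) : HasDerivAt k' (k'' x) x := by
  have h0 : HasDerivAt (fun y : ℝ => 1 / y) (-(1 / x ^ 2)) x := by
    have h0 : HasDerivAt (fun y : ℝ => y⁻¹) (-(x ^ 2)⁻¹) x := hasDerivAt_inv hx.ne'
    simpa only [one_div] using h0
  have h1 : HasDerivAt (fun y : ℝ => 2 + y) 1 x := (hasDerivAt_id x).const_add 2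
  have h2 := h1.div (deriv_q x) (q_pos hx).ne'
  have h3 := (((deriv_log hx).const_mul (7 / 5)).sub (h0.const_mul (2 / 5))).sub h2
  have e : k'' x = 7 / 5 * (-(1 / (x * (1 + x)))) - 2 / 5 * (-(1 / x ^ 2)) -
      (1 * (1 + 4 * x + x ^ 2) - (2 + x) * (4 + 2 * x)) / (1 + 4 * x + x ^ 2) ^ 2 := by
    unfold k''
    have hx1 : (1 + x) ≠ 0 := by positivity
    have hq := (q_pos hx).ne'
    field_simp
    ring
  rw [e]
  exact h3

lemma k''_nonneg {x : ℝ} (hx : 0 < x) (hx1 : x ≤ 1) : 0 ≤ k'' x := by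
  unfold k''
  have hq := q_pos hx
  have e : (2 / 5 - x) / (x ^ 2 * (1 + x)) + (7 + 4 * x + x ^ 2) / (1 + 4 * x + x ^ 2) ^ 2
      = (2 / 5 + 11 / 5 * x + 31 / 5 * x ^ 2 - 19 / 5 * x ^ 3 - 13 / 5 * x ^ 4) /
        (x ^ 2 * (1 + x) * (1 + 4 * x + x ^ 2) ^ 2) := by
    have hx1 : (1 + x) ≠ 0 := by positivity
    have hq' := hq.ne'
    rw [div_add_div _ _ (by positivity) (by positivity)]
    congr 1
    ring
  rw [e]
  refine div_nonneg ?_ (by positivity)
  have h2 : x ^ 3 ≤ x ^ 2 := by nlinarith [sq_nonneg x]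
  have h3 : x ^ 4 ≤ x ^ 2 := by nlinarith [sq_nonneg x, mul_pos hx hx]
  nlinarith [sq_nonneg x]

lemma convex_k : ConvexOn ℝ (Ioc (0 : ℝ) 1) k := by
  refine convexOn_of_hasDerivWithinAt2_nonneg (f' := k') (f'' := k'') (convex_Ioc 0 1) ?_ ?_ ?_ ?_
  · intro x hx
    exact (deriv_k hx.1).continuousAt.continuousWithinAt
  · intro x hx
    rw [interior_Ioc] at hx
    exact (deriv_k hx.1).hasDerivWithinAt
  · intro x hx
    rw [interior_Ioc] at hx
    exact (deriv_k' hx.1).hasDerivWithinAt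
  · intro x hx
    rw [interior_Ioc] at hx
    exact k''_nonneg hx.1 hx.2.le

/-- the tangent -/
lemma tangent_k {a x : ℝ} (ha : 0 < a) (ha1 : a ≤ 1) (hx : 0 < x) (hx1 : x ≤ 1) :
    k a + k' a * (x - a) ≤ k x := by
  rcases lt_trichotomy a x with h | h | h
  · have h1 := convex_k.le_slope_of_hasDerivAt (mem_Ioc.mpr ⟨ha, ha1⟩) (mem_Ioc.mpr ⟨hx, hx1⟩) h
      (deriv_k ha)
    rw [slope_def_field, le_div_iff₀ (by linarith)] at h1
    linarith
  · rw [h]; simp
  · have h1 := convex_k.slope_le_of_hasDerivAt (mem_Ioc.mpr ⟨hx, hx1⟩) (mem_Ioc.mpr ⟨ha, ha1⟩) h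
      (deriv_k ha)
    rw [slope_def_field, div_le_iff₀ (by linarith)] at h1
    linarith

/-- sum of the tangents of `F` -/
lemma sum_F {a : ℝ} (ha : 0 < a) (ha1 : a ≤ 1) {n : ℕ} (x : Fin n → ℝ) (hx : ∀ i, 0 < x i)
    (hx1 : ∀ i, x i ≤ 1) :
    (n : ℝ) * F a + g' a * (∑ i, x i - n * a) ≤ ∑ i, F (x i) := by
  have h1 : ∀ i, F a - g' a * a + g' a * x i ≤ F (x i) := by
    intro i
    rw [F_eq ha, F_eq (hx i)]
    have := tangent ha ha1 (hx i) (hx1 i)
    linarith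
  have h2 := Finset.sum_le_sum (s := Finset.univ) fun i (_ : i ∈ Finset.univ) => h1 i
  refine le_trans (le_of_eq ?_) h2
  rw [Finset.sum_add_distrib, ← Finset.mul_sum, Finset.sum_const, Finset.card_univ,
    Fintype.card_fin, nsmul_eq_mul]
  ring

lemma log3_lower : (1.0984 : ℝ) ≤ Real.log 3 := by
  have e : (3 : ℝ) = 2 * (3 / 2) := by norm_num
  have h1 := Real.sum_range_le_log_div (x := 1 / 5) (by norm_num) (by norm_num) 2
  have e2 : (1 + (1 / 5 : ℝ)) / (1 - 1 / 5) = 3 / 2 := by norm_num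
  rw [e2] at h1
  norm_num [Finset.sum_range_succ] at h1
  have h2 := Real.log_two_gt_d9
  rw [e, Real.log_mul (by norm_num) (by norm_num)]
  linarith

lemma F_quarter : 0 ≤ F (1 / 4) := by
  rw [F_eq (by norm_num)]
  have hv := NUMBM.value
  have h1 := NUMBM.log5_lower
  have h2 := NUMBM.log_upper
  have h3 := IA.gamma_lt
  norm_num at h1 h2 h3 hv ⊢
  linarith

lemma g'_quarter : g' (1 / 4) ≤ 0 := by
  unfold g'
  have h := NUMBM.log5_upper
  have e1 : (1 : ℝ) + 1 / (1 / 4) = 5 := by norm_num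
  rw [e1]
  norm_num
  linarith

lemma log13_upper : Real.log 13 ≤ 2 * Real.log 2 + Real.log 3 + 1 / 12 := by
  have e : (13 : ℝ) = 2 * 2 * 3 * (13 / 12) := by norm_num
  have h1 := Real.log_le_sub_one_of_pos (show (0 : ℝ) < 13 / 12 by norm_num)
  rw [e, Real.log_mul (by norm_num) (by norm_num), Real.log_mul (by norm_num) (by norm_num),
    Real.log_mul (by norm_num) (by norm_num)]
  linarith

lemma g'_seventh : g' (1 / 7) ≤ 0 := by
  unfold g'
  have h := Real.log_two_lt_d9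
  have e1 : (1 : ℝ) + 1 / (1 / 7) = 2 ^ 3 := by norm_num
  rw [e1, Real.log_pow]
  norm_num at h ⊢
  linarith

lemma k'_half : k' (1 / 2) ≤ 0 ∧ k' (1 / 2) = 7 / 5 * Real.log 3 - 4 / 5 - 10 / 13 := by
  have e1 : (1 : ℝ) + 1 / (1 / 2) = 3 := by norm_num
  have e2 : k' (1 / 2) = 7 / 5 * Real.log 3 - 4 / 5 - 10 / 13 := by
    unfold k'
    rw [e1]
    norm_num
  refine ⟨?_, e2⟩
  rw [e2]
  have h : Real.log 3 ≤ 1.1202 := by
    have e : (3 : ℝ) = 2 * ((9 / 8) * (10 / 9) * (11 / 10) * (12 / 11)) := by norm_num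
    have h1 := Real.log_le_sub_one_of_pos (show (0 : ℝ) < 9 / 8 by norm_num)
    have h2 := Real.log_le_sub_one_of_pos (show (0 : ℝ) < 10 / 9 by norm_num)
    have h1' := Real.log_le_sub_one_of_pos (show (0 : ℝ) < 11 / 10 by norm_num)
    have h2' := Real.log_le_sub_one_of_pos (show (0 : ℝ) < 12 / 11 by norm_num)
    have h3 := Real.log_two_lt_d9
    rw [e, Real.log_mul (by norm_num) (by norm_num), Real.log_mul (by norm_num) (by norm_num),
      Real.log_mul (by norm_num) (by norm_num), Real.log_mul (by norm_num) (by norm_num)]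
    norm_num at h1 h2 h1' h2' h3 ⊢
    linarith
  norm_num at h ⊢
  linarith

/-- `F (1/7) + H y ≥ 0` -/
lemma F_H {y : ℝ} (hy : 0 < y) (hy1 : y ≤ 1) : 0 ≤ F (1 / 7) + H y := by
  rw [F_eq (by norm_num), H_eq hy]
  have h1 := tangent_k (a := 1 / 2) (by norm_num) (by norm_num) hy hy1
  obtain ⟨h2, h3⟩ := k'_half
  have h4 : k' (1 / 2) * (1 / 2) ≤ k' (1 / 2) * (y - 1 / 2) :=
    mul_le_mul_of_nonpos_left (by linarith) h2
  have h5 : g (1 / 7) = 48 / 7 * Real.log 2 - 1 / 2 * Real.log 13 - 1 / 2 * Real.log 6 := by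
    unfold g
    have e1 : (1 : ℝ) + 1 / (1 / 7) = 2 ^ 3 := by norm_num
    have e2 : (1 : ℝ) + 4 * (1 / 7) + (1 / 7) ^ 2 = 13 * 6 / (7 * 7) := by norm_num
    have e3 : Real.log (1 / 7) = - Real.log 7 := by rw [one_div, Real.log_inv]
    rw [e1, e2, e3, Real.log_pow, Real.log_div (by norm_num) (by norm_num),
      Real.log_mul (by norm_num) (by norm_num), Real.log_mul (by norm_num) (by norm_num)]
    push_cast
    ring
  have h6 : k (1 / 2) = 21 / 10 * Real.log 3 - 1 / 2 * Real.log 13 := by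
    unfold k
    have e1 : (1 : ℝ) + 1 / (1 / 2) = 3 := by norm_num
    have e2 : (1 : ℝ) + 4 * (1 / 2) + (1 / 2) ^ 2 = 13 / (2 * 2) := by norm_num
    have e3 : Real.log (1 / 2) = - Real.log 2 := by rw [one_div, Real.log_inv]
    rw [e1, e2, e3, Real.log_div (by norm_num) (by norm_num), Real.log_mul (by norm_num) (by norm_num)]
    ring
  have h7 : Real.log 6 = Real.log 2 + Real.log 3 := by
    rw [← Real.log_mul (by norm_num) (by norm_num)]
    norm_num
  have h8 := log13_upper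
  have h9 := log3_lower
  have h10 := Real.log_two_gt_d9
  have h11 := IA.gamma_lt
  have h12 : k' (1 / 2) * (1 / 2) = (7 / 5 * Real.log 3 - 4 / 5 - 10 / 13) * (1 / 2) := by rw [h3]
  rw [h5]
  rw [h6] at h1
  norm_num at h9 h10 h11
  linarith

/-- THE NUMERICAL FACT FOR A PAIR, first case -/
lemma pair1 {n : ℕ} (x y : Fin n → ℝ) (hx : ∀ i, 0 < x i) (hx1 : ∀ i, x i ≤ 1)
    (hy : ∀ i, 0 < y i) (hy1 : ∀ i, y i ≤ 1) (h : 2 * (∑ i, x i + ∑ i, y i) ≤ (n : ℝ)) :
    0 ≤ ∑ i, F (x i) + ∑ i, F (y i) := by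
  have h1 := sum_F (a := 1 / 4) (by norm_num) (by norm_num) x hx hx1
  have h2 := sum_F (a := 1 / 4) (by norm_num) (by norm_num) y hy hy1
  have h3 : 0 ≤ g' (1 / 4) * (∑ i, x i + ∑ i, y i - n / 2) :=
    mul_nonneg_of_nonpos_of_nonpos g'_quarter (by linarith)
  have h4 : 0 ≤ (n : ℝ) * F (1 / 4) := mul_nonneg (Nat.cast_nonneg _) F_quarter
  have h5 : g' (1 / 4) * (∑ i, x i + ∑ i, y i - n / 2)
      = g' (1 / 4) * (∑ i, x i - n * (1 / 4)) + g' (1 / 4) * (∑ i, y i - n * (1 / 4)) := by ring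
  linarith

/-- THE NUMERICAL FACT FOR A PAIR, second case -/
lemma pair2 {n : ℕ} (x y : Fin n → ℝ) (hx : ∀ i, 0 < x i) (hx1 : ∀ i, x i ≤ 1)
    (hy : ∀ i, 0 < y i) (hy1 : ∀ i, y i ≤ 1) (h : 7 * ∑ i, x i ≤ (n : ℝ)) :
    0 ≤ ∑ i, F (x i) + ∑ i, H (y i) := by
  have h1 := sum_F (a := 1 / 7) (by norm_num) (by norm_num) x hx hx1
  have h3 : 0 ≤ g' (1 / 7) * (∑ i, x i - n * (1 / 7)) :=
    mul_nonneg_of_nonpos_of_nonpos g'_seventh (by linarith)
  have h4 : 0 ≤ ∑ i, (F (1 / 7) + H (y i)) := Finset.sum_nonneg fun i _ => F_H (hy i) (hy1 i)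
  rw [Finset.sum_add_distrib, Finset.sum_const, Finset.card_univ, Fintype.card_fin,
    nsmul_eq_mul] at h4
  linarith

end NUMCM

end CholLR
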