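import Pool.Agent.Lib.MP_6947cd_al.Lieb

/-!
Problem MP_6947cd_al (Chollet), LOW RANK: three facts on correlation matrices (no tactic which leaves a
metaprogramming constant in the proof).
-/

set_option autoImplicit false
open scoped Matrix ComplexOrder
open Matrix Finset

namespace CholLR
namespace OneM

open Pool.Agent.Lib.MP_6947cd_al

theorem perm_one {ι : Type} (f : Fintype ι) (g : DecidableEq ι) (hs : Subsingleton ι)
    (M : Matrix ι ι ℂ) (k : ι) (h : M k k = 1) : M.permanent.re = 1 := by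
  rw [Matrix.permanent_eq_elem_of_subsingleton M k, h, Complex.one_re]

/-- A correlation matrix has permanent at least one. -/
theorem one_le_permanent {κ : Type} [Fintype κ] [DecidableEq κ] (A : Matrix κ κ ℂ)
    (hA : A.PosSemidef) (hd : ∀ i, A i i = 1) : 1 ≤ A.permanent.re := by
  suffices H : ∀ (n : ℕ) (κ : Type) [Fintype κ] [DecidableEq κ] (A : Matrix κ κ ℂ),
      Fintype.card κ = n → A.PosSemidef → (∀ i, A i i = 1) → 1 ≤ A.permanent.re from
    H _ κ A rfl hA hd
  intro n
  induction n with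
  | zero =>
    intro κ _ _ A hc _ _
    rw [Matrix.permanent_eq_one_of_card_eq_zero hc]
    simp
  | succ n ih =>
    intro κ _ _ A hc hA hd
    have hne : Nonempty κ := Fintype.card_pos_iff.1 (by omega)
    obtain ⟨i⟩ := hne
    have h := Lieb.lieb (fun x : κ => x = i) A hA
    have key : ∀ x y z : ℝ, x * y ≤ z → x = 1 → 1 ≤ y → 1 ≤ z := by
      intro x y z h hx hy
      rw [hx, one_mul] at h
      linarith
    refine key _ _ _ h ?_ ?_
    · have hs : Subsingleton {x : κ // x = i} :=
        ⟨fun a b => Subtype.ext (a.2.trans b.2.symm)⟩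
      refine perm_one _ _ hs _ ⟨i, rfl⟩ ?_
      exact hd i
    · refine ih {x : κ // ¬ x = i} _ ?_ ?_ ?_
      · rw [Fintype.card_subtype_compl, Fintype.card_subtype_eq]
        omega
      · exact hA.submatrix (fun x : {x : κ // ¬ x = i} => (x : κ))
      · intro a
        exact hd a

theorem entry_le_one {n : ℕ} (W : Matrix (Fin n) (Fin n) ℂ) (hd : ∀ i, (W * Wᴴ) i i = 1)
    (i j : Fin n) : ‖(W * Wᴴ) i j‖ ≤ 1 := by
  have h1 : ∀ i, ∑ k, ‖W i k‖ ^ 2 = 1 := by
    intro i
    have h := hd i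
    rw [Matrix.mul_apply] at h
    have e : ∑ k, W i k * Wᴴ k i = ((∑ k, ‖W i k‖ ^ 2 : ℝ) : ℂ) := by
      push_cast
      refine Finset.sum_congr rfl fun k _ => ?_
      rw [Matrix.conjTranspose_apply, Complex.star_def, Complex.mul_conj, Complex.normSq_eq_norm_sq]
      push_cast
      rfl
    rw [e] at h
    exact_mod_cast h
  rw [Matrix.mul_apply]
  calc ‖∑ k, W i k * Wᴴ k j‖ ≤ ∑ k, ‖W i k * Wᴴ k j‖ := norm_sum_le _ _
    _ ≤ ∑ k, (‖W i k‖ ^ 2 + ‖W j k‖ ^ 2) / 2 := by
      refine Finset.sum_le_sum fun k _ => ?_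
      rw [norm_mul, Matrix.conjTranspose_apply, norm_star]
      nlinarith [sq_nonneg (‖W i k‖ - ‖W j k‖)]
    _ = 1 := by
      rw [← Finset.sum_div, Finset.sum_add_distrib, h1, h1]
      norm_num

end OneM
end CholLR
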