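import Pool.Agent.Lib.MP_6947cd_al.LR.Spec
import Pool.Agent.Lib.MP_6947cd_al.B.Alg

/-!
Problem MP_6947cd_al (Chollet), LOW RANK, module SPC: the spectral facts (helper64).
-/

set_option autoImplicit false

open MeasureTheory ProbabilityTheory Set Matrix
open scoped ENNReal ComplexConjugate ComplexOrder

namespace CholLR

open MPf1e3 (cg G GM nsq)

theorem specSPC : SpecSPC := by
  intro n A hA hd
  set lam : Fin n → ℝ := hA.1.eigenvalues with hlam
  set U : Matrix (Fin n) (Fin n) ℂ := (hA.1.eigenvectorUnitary : Matrix (Fin n) (Fin n) ℂ) with hU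
  have hUU : Uᴴ * U = 1 := by
    have := (hA.1.eigenvectorUnitary).2
    rw [mem_unitaryGroup_iff'] at this
    exact this
  have hUU' : U * Uᴴ = 1 := by
    have := (hA.1.eigenvectorUnitary).2
    rw [mem_unitaryGroup_iff] at this
    exact this
  have hlam0 : ∀ k, 0 ≤ lam k := hA.eigenvalues_nonneg
  have hspec : A = CholB.fc U lam (fun l => l) := by
    have h := hA.1.spectral_theorem
    rw [Unitary.conjStarAlgAut_apply] at h
    exact h
  have hw1' : ∀ k, ∑ i, ‖U i k‖ ^ 2 = 1 := by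
    intro k
    have h := congrFun (congrFun hUU k) k
    rw [Matrix.mul_apply, Matrix.one_apply_eq] at h
    have h2 : ∑ i, Uᴴ k i * U i k = ((∑ i, ‖U i k‖ ^ 2 : ℝ) : ℂ) := by
      push_cast
      refine Finset.sum_congr rfl fun i _ => ?_
      rw [Matrix.conjTranspose_apply, Complex.star_def, mul_comm, Complex.mul_conj']
    rw [h2] at h
    exact_mod_cast h
  have hw2 : ∀ i, ∑ k, ‖U i k‖ ^ 2 * lam k = 1 := by
    intro i
    have h := congrFun (congrFun hspec i) i
    rw [CholB.AlgM.fc_self, hd i] at h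
    exact_mod_cast h.symm
  have hAA : ∀ i, (A * A) i i = ((∑ j, ‖A i j‖ ^ 2 : ℝ) : ℂ) := by
    intro i
    rw [Matrix.mul_apply]
    push_cast
    refine Finset.sum_congr rfl fun j _ => ?_
    have hji : A j i = conj (A i j) := by
      have := hA.1.apply j i
      rw [← this]; rfl
    rw [hji, Complex.mul_conj']
  have hw3 : ∀ i, ∑ k, ‖U i k‖ ^ 2 * (lam k * lam k) = ∑ j, ‖A i j‖ ^ 2 := by
    intro i
    have h := hAA i
    have h2 : A * A = CholB.fc U lam (fun l => l * l) := by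
      conv_lhs => rw [hspec]
      exact CholB.AlgM.fc_mul U lam hUU (fun l => l) (fun l => l)
    rw [h2, CholB.AlgM.fc_self] at h
    exact_mod_cast h
  have hR1 : ∀ i, 1 ≤ ∑ j, ‖A i j‖ ^ 2 := by
    intro i
    have h1 : ‖A i i‖ ^ 2 ≤ ∑ j, ‖A i j‖ ^ 2 :=
      Finset.single_le_sum (f := fun j => ‖A i j‖ ^ 2) (fun j _ => by positivity)
        (Finset.mem_univ i)
    rw [hd i] at h1
    simpa using h1
  set W : Matrix (Fin n) (Fin n) ℂ := U * diagonal (fun k => ((Real.sqrt (lam k) : ℝ) : ℂ)) with hW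
  have hWij : ∀ i k, ‖W i k‖ ^ 2 = ‖U i k‖ ^ 2 * lam k := by
    intro i k
    rw [hW, Matrix.mul_diagonal, norm_mul, mul_pow, Complex.norm_real, Real.norm_eq_abs, sq_abs,
      Real.sq_sqrt (hlam0 k)]
  refine ⟨W, lam, hlam0, ?_, ?_, ?_, hR1, ?_, ?_⟩
  · rw [hW, conjTranspose_mul, diagonal_conjTranspose]
    calc U * diagonal (fun k => ((Real.sqrt (lam k) : ℝ) : ℂ)) *
          (diagonal (star fun k => ((Real.sqrt (lam k) : ℝ) : ℂ)) * Uᴴ)
        = U * (diagonal (fun k => ((Real.sqrt (lam k) : ℝ) : ℂ)) *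
          diagonal (star fun k => ((Real.sqrt (lam k) : ℝ) : ℂ))) * Uᴴ := by
          simp only [Matrix.mul_assoc]
      _ = CholB.fc U lam (fun l => l) := by
          rw [diagonal_mul_diagonal]
          unfold CholB.fc
          congr 2
          congr 1
          funext k
          simp only [Pi.star_apply, Complex.star_def, Complex.conj_ofReal]
          rw [← Complex.ofReal_mul, Real.mul_self_sqrt (hlam0 k)]
      _ = A := hspec.symm
  · calc ∑ k, lam k = ∑ k, (∑ i, ‖U i k‖ ^ 2) * lam k := by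
          refine Finset.sum_congr rfl fun k _ => ?_
          rw [hw1' k, one_mul]
      _ = ∑ k, ∑ i, ‖U i k‖ ^ 2 * lam k := by
          refine Finset.sum_congr rfl fun k _ => ?_
          rw [Finset.sum_mul]
      _ = ∑ i, ∑ k, ‖U i k‖ ^ 2 * lam k := Finset.sum_comm
      _ = ∑ _i : Fin n, (1 : ℝ) := Finset.sum_congr rfl fun i _ => hw2 i
      _ = n := by simp
  · intro i
    calc ∑ u, ‖W i u‖ ^ 2 * (1 + lam u)
        = ∑ u, (‖U i u‖ ^ 2 * lam u + ‖U i u‖ ^ 2 * (lam u * lam u)) := by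
          refine Finset.sum_congr rfl fun u _ => ?_
          rw [hWij]
          ring
      _ = 1 + ∑ j, ‖A i j‖ ^ 2 := by rw [Finset.sum_add_distrib, hw2, hw3]
  · have key : ∀ i, Real.log (1 + ∑ j, ‖A i j‖ ^ 2) / (∑ j, ‖A i j‖ ^ 2) ≤
        ∑ k, ‖U i k‖ ^ 2 * Real.log (1 + lam k) := by
      intro i
      set R : ℝ := ∑ j, ‖A i j‖ ^ 2 with hR
      have hRpos : 0 < R := lt_of_lt_of_le one_pos (hR1 i)
      obtain ⟨J, hJ⟩ := CholB.AlgM.tangent_log R hRpos
      have h1 : ∑ k, ‖U i k‖ ^ 2 * (lam k * (Real.log (1 + R) / R - J * (lam k - R))) ≤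
          ∑ k, ‖U i k‖ ^ 2 * Real.log (1 + lam k) :=
        Finset.sum_le_sum fun k _ => mul_le_mul_of_nonneg_left (hJ (lam k) (hlam0 k)) (by positivity)
      rw [CholB.AlgM.sum_tan (fun k => ‖U i k‖ ^ 2) lam, hw2, hw3] at h1
      have h2 : (Real.log (1 + R) / R + J * R) * 1 - J * R = Real.log (1 + R) / R := by ring
      rw [← hR] at h1
      rw [h2] at h1
      exact h1
    calc ∑ i, Real.log (1 + ∑ j, ‖A i j‖ ^ 2) / (∑ j, ‖A i j‖ ^ 2)
        ≤ ∑ i, ∑ k, ‖U i k‖ ^ 2 * Real.log (1 + lam k) := Finset.sum_le_sum fun i _ => key i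
      _ = ∑ k, ∑ i, ‖U i k‖ ^ 2 * Real.log (1 + lam k) := Finset.sum_comm
      _ = ∑ k, Real.log (1 + lam k) := by
          refine Finset.sum_congr rfl fun k _ => ?_
          rw [← Finset.sum_mul, hw1' k, one_mul]
  · have key : ∀ i, 1 / (∑ j, ‖A i j‖ ^ 2) ≤
        ∑ k, ‖U i k‖ ^ 2 * (if lam k ≠ 0 then (1 : ℝ) else 0) := by
      intro i
      set R : ℝ := ∑ j, ‖A i j‖ ^ 2 with hR
      have hRpos : 0 < R := lt_of_lt_of_le one_pos (hR1 i)
      have h0 : ∀ k, lam k * (2 / R - 1 / R ^ 2 * (lam k - 0)) ≤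
          (if lam k ≠ 0 then (1 : ℝ) else 0) := by
        intro k
        by_cases hk : lam k = 0
        · rw [if_neg (by simpa using hk), hk]
          simp
        · rw [if_pos hk]
          have e : 1 - lam k * (2 / R - 1 / R ^ 2 * (lam k - 0)) = (1 - lam k / R) ^ 2 := by
            field_simp
            ring
          nlinarith [sq_nonneg (1 - lam k / R)]
      have h1 : ∑ k, ‖U i k‖ ^ 2 * (lam k * (2 / R - 1 / R ^ 2 * (lam k - 0))) ≤
          ∑ k, ‖U i k‖ ^ 2 * (if lam k ≠ 0 then (1 : ℝ) else 0) :=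
        Finset.sum_le_sum fun k _ => mul_le_mul_of_nonneg_left (h0 k) (by positivity)
      rw [CholB.AlgM.sum_tan (fun k => ‖U i k‖ ^ 2) lam, hw2, hw3] at h1
      rw [← hR] at h1
      have h2 : (2 / R + 1 / R ^ 2 * 0) * 1 - 1 / R ^ 2 * R = 1 / R := by
        field_simp
        ring
      rw [h2] at h1
      exact h1
    calc ∑ i, 1 / (∑ j, ‖A i j‖ ^ 2)
        ≤ ∑ i, ∑ k, ‖U i k‖ ^ 2 * (if lam k ≠ 0 then (1 : ℝ) else 0) :=
          Finset.sum_le_sum fun i _ => key i
      _ = ∑ k, ∑ i, ‖U i k‖ ^ 2 * (if lam k ≠ 0 then (1 : ℝ) else 0) := Finset.sum_comm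
      _ = ∑ k, (if lam k ≠ 0 then (1 : ℝ) else 0) := by
          refine Finset.sum_congr rfl fun k _ => ?_
          rw [← Finset.sum_mul, hw1' k, one_mul]
      _ = (A.rank : ℝ) := by
          rw [hA.1.rank_eq_card_non_zero_eigs, Fintype.card_subtype, Finset.sum_boole]

end CholLR
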