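import Mathlib
import Pool.Agent.Lib.MP_6947cd_al.LR.SpecB
import Pool.Agent.Lib.MP_6947cd_al.EntropicInt

/-!
Problem MP_6947cd_al (Chollet), LOW RANK, module TSB (helper83): the permanent of a matrix with entries in
`[0, 1]` and row sums `R_i ≥ 1` is at most the product of the `((R_i^2 + 4 R_i + 1)/6)^(1/2)`.
-/

set_option autoImplicit false

namespace CholLR

namespace TSBM

open Pool.Agent.Lib.MP_6947cd_al Pool.Agent.Lib.MP_6947cd_al.Ent

lemma mono0 (f f' : ℝ → ℝ) (h : ∀ x, 0 ≤ x → HasDerivAt f (f' x) x) (hn : ∀ x, 0 ≤ x → 0 ≤ f' x)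
    {x : ℝ} (hx : 0 ≤ x) : f 0 ≤ f x := by
  have hm : MonotoneOn f (Set.Ici 0) := by
    refine monotoneOn_of_deriv_nonneg (convex_Ici 0) ?_ ?_ ?_
    · intro x hx
      exact (h x hx).continuousAt.continuousWithinAt
    · rw [interior_Ici]
      intro x hx
      exact (h x (le_of_lt hx)).differentiableAt.differentiableWithinAt
    · rw [interior_Ici]
      intro x hx
      rw [(h x (le_of_lt hx)).deriv]
      exact hn x (le_of_lt hx)
  exact hm (Set.mem_Ici.mpr le_rfl) (Set.mem_Ici.mpr hx) hx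

lemma hasDerivP (b : ℝ) : HasDerivAt (fun x : ℝ => 1 + x + x ^ 2 / 6) (1 + b / 3) b := by
  have h := ((hasDerivAt_id' b).const_add 1).add ((hasDerivAt_pow 2 b).div_const 6)
  refine HasDerivAt.congr_deriv h ?_
  push_cast
  ring

lemma P_pos {b : ℝ} (hb : 0 ≤ b) : 0 < 1 + b + b ^ 2 / 6 := by positivity

/-- The derivative of `Q`. -/
noncomputable def Q1 (b : ℝ) : ℝ :=
  Real.log (1 + b + b ^ 2 / 6) + b * (1 + b / 3) / (1 + b + b ^ 2 / 6) - 2 * Real.log (1 + b)

/-- `2 b` times the difference of the two sides. -/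
noncomputable def Q0 (b : ℝ) : ℝ :=
  b * Real.log (1 + b + b ^ 2 / 6) - 2 * ((1 + b) * Real.log (1 + b)) + 2 * b

lemma Q1_nonneg {b : ℝ} (hb : 0 ≤ b) : 0 ≤ Q1 b := by
  have h := mono0 Q1 (fun b => b ^ 3 / (18 * (1 + b + b ^ 2 / 6) ^ 2 * (1 + b))) (fun x hx => ?_)
    (fun x hx => by positivity) hb
  · have h0 : Q1 0 = 0 := by simp [Q1]
    rwa [h0] at h
  · have hP := hasDerivP x
    have hP0 := P_pos hx
    have h1 : (0 : ℝ) < 1 + x := by linarith
    have hlin : HasDerivAt (fun y : ℝ => 1 + y) 1 x := (hasDerivAt_id' x).const_add 1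
    have hnum : HasDerivAt (fun y : ℝ => y * (1 + y / 3)) (1 * (1 + x / 3) + x * (1 / 3)) x :=
      (hasDerivAt_id' x).mul (((hasDerivAt_id' x).div_const 3).const_add 1)
    have hd := ((hP.log hP0.ne').add (hnum.div hP hP0.ne')).sub ((hlin.log h1.ne').const_mul 2)
    refine HasDerivAt.congr_deriv hd ?_
    field_simp
    ring

lemma Q0_nonneg {b : ℝ} (hb : 0 ≤ b) : 0 ≤ Q0 b := by
  have h := mono0 Q0 Q1 (fun x hx => ?_) (fun x hx => Q1_nonneg hx) hb
  · have h0 : Q0 0 = 0 := by simp [Q0]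
    rwa [h0] at h
  · have hP := hasDerivP x
    have hP0 := P_pos hx
    have h1 : (0 : ℝ) < 1 + x := by linarith
    have hlin : HasDerivAt (fun y : ℝ => 1 + y) 1 x := (hasDerivAt_id' x).const_add 1
    have hd := (((hasDerivAt_id' x).mul (hP.log hP0.ne')).sub
      ((hlin.mul (hlin.log h1.ne')).const_mul 2)).add ((hasDerivAt_id' x).const_mul 2)
    refine HasDerivAt.congr_deriv hd ?_
    unfold Q1
    field_simp
    ring

lemma integral_log_lin {b : ℝ} (hb : 0 < b) :
    ∫ u in (0 : ℝ)..1, Real.log (1 + u * b) = ((1 + b) * Real.log (1 + b) - b) / b := by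
  have hd : ∀ u ∈ Set.uIcc (0 : ℝ) 1, HasDerivAt
      (fun u : ℝ => ((1 + u * b) * Real.log (1 + u * b) - u * b) / b) (Real.log (1 + u * b)) u := by
    intro u hu
    rw [Set.uIcc_of_le zero_le_one] at hu
    have h1 : (0 : ℝ) < 1 + u * b := by
      have := mul_nonneg hu.1 hb.le
      linarith
    have hm : HasDerivAt (fun y : ℝ => y * b) (1 * b) u := (hasDerivAt_id' u).mul_const b
    have hl : HasDerivAt (fun y : ℝ => 1 + y * b) (1 * b) u := hm.const_add 1
    have hd := ((hl.mul (hl.log h1.ne')).sub hm).div_const b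
    refine HasDerivAt.congr_deriv hd ?_
    have hb' : b ≠ 0 := hb.ne'
    rw [mul_div_cancel₀ (1 * b) h1.ne', one_mul, add_sub_cancel_right, mul_comm b,
      mul_div_cancel_right₀ _ hb']
  have hc : IntervalIntegrable (fun u : ℝ => Real.log (1 + u * b)) MeasureTheory.volume 0 1 := by
    refine ContinuousOn.intervalIntegrable ?_
    rw [Set.uIcc_of_le zero_le_one]
    refine ContinuousOn.log (by fun_prop) fun u hu => ?_
    have := mul_nonneg hu.1 hb.le
    linarith
  rw [intervalIntegral.integral_eq_sub_of_hasDerivAt hd hc]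
  simp

/-- `∫ log (1 + u b) ≤ (1/2) log (1 + b + b^2/6)`. -/
lemma integral_log_le {b : ℝ} (hb : 0 ≤ b) :
    ∫ u in (0 : ℝ)..1, Real.log (1 + u * b) ≤ 1 / 2 * Real.log (1 + b + b ^ 2 / 6) := by
  rcases eq_or_lt_of_le hb with h | h
  · subst h
    simp
  · rw [integral_log_lin h, div_le_iff₀ h]
    have hq := Q0_nonneg hb
    unfold Q0 at hq
    linarith

/-- The row bound. -/
lemma ell_le {n : ℕ} (y : Fin n → ℝ) (hy0 : ∀ k, 0 ≤ y k) (hy1 : ∀ k, y k ≤ 1)
    (hR : 1 ≤ ∑ k, y k) (j : Fin n) (hj : 0 < y j) :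
    ell Finset.univ y j
      ≤ 1 / 2 * Real.log (((∑ k, y k) ^ 2 + 4 * (∑ k, y k) + 1) / 6) := by
  have hsum : ∑ k ∈ Finset.univ.erase j, y k = (∑ k, y k) - y j := by
    have := Finset.add_sum_erase Finset.univ y (Finset.mem_univ j)
    linarith
  have h1 := ell_le_split Finset.univ y j (Finset.mem_univ j) (fun k _ => hy0 k) hj ∅
    (Finset.univ.erase j) (Finset.disjoint_empty_left _) (Finset.empty_union _)
  set R := ∑ k, y k with hRdef
  have hjR : y j ≤ R := Finset.single_le_sum (fun k _ => hy0 k) (Finset.mem_univ j)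
  have h2 : ∫ u in (0 : ℝ)..1, bern u (∅ : Finset (Fin n))
      (fun K => Real.log (y j + ∑ k ∈ K, y k + u * ∑ k ∈ Finset.univ.erase j, y k))
      = ∫ u in (0 : ℝ)..1, Real.log (y j + u * (R - y j)) := by
    refine intervalIntegral.integral_congr fun u _ => ?_
    show bern u (∅ : Finset (Fin n)) _ = _
    rw [bern_empty, Finset.sum_empty, add_zero, hsum]
  rw [h2] at h1
  have hb : 0 ≤ R - 1 := by linarith
  have hpos : ∀ u ∈ Set.Icc (0 : ℝ) 1, 0 < y j + u * (R - y j) := by
    intro u hu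
    have := mul_nonneg hu.1 (sub_nonneg.mpr hjR)
    linarith
  have hc1 : IntervalIntegrable (fun u : ℝ => Real.log (y j + u * (R - y j)))
      MeasureTheory.volume 0 1 := by
    refine ContinuousOn.intervalIntegrable ?_
    rw [Set.uIcc_of_le zero_le_one]
    exact ContinuousOn.log (by fun_prop) fun u hu => (hpos u hu).ne'
  have hc2 : IntervalIntegrable (fun u : ℝ => Real.log (1 + u * (R - 1)))
      MeasureTheory.volume 0 1 := by
    refine ContinuousOn.intervalIntegrable ?_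
    rw [Set.uIcc_of_le zero_le_one]
    refine ContinuousOn.log (by fun_prop) fun u hu => ?_
    have := mul_nonneg hu.1 hb
    linarith
  have h3 : ∫ u in (0 : ℝ)..1, Real.log (y j + u * (R - y j))
      ≤ ∫ u in (0 : ℝ)..1, Real.log (1 + u * (R - 1)) := by
    refine intervalIntegral.integral_mono_on zero_le_one hc1 hc2 fun u hu => ?_
    refine Real.log_le_log (hpos u hu) ?_
    have h4 := mul_nonneg (sub_nonneg.mpr hu.2) (sub_nonneg.mpr (hy1 j))
    nlinarith
  have h5 := integral_log_le hb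
  have h6 : 1 + (R - 1) + (R - 1) ^ 2 / 6 = (R ^ 2 + 4 * R + 1) / 6 := by ring
  rw [h6] at h5
  exact h1.trans (h3.trans h5)

end TSBM

open TSBM in
theorem specTSB : SpecTSB := by
  intro n M h0 h1 hR
  refine Pool.Agent.Lib.MP_6947cd_al.Ent.permanent_le_exp M h0 (fun i j => M i j) h0
    (fun i j hij => lt_of_le_of_ne (h0 i j) (Ne.symm hij)) _ fun i j hij => ?_
  have h := ell_le (fun k => M i k) (h0 i) (h1 i) (hR i) j (lt_of_le_of_ne (h0 i j) (Ne.symm hij))
  simp only [sub_self, zero_add]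
  exact h

end CholLR
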