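import Pool.Agent.Lib.MP_6947cd_al.LR.LOG
import Pool.Agent.Lib.MP_6947cd_al.LR.CVO
import Pool.Agent.Lib.MP_6947cd_al.LR.JEO
import Pool.Agent.Lib.MP_6947cd_al.LR.SPC
import Pool.Agent.Lib.MP_6947cd_al.LR.TSB
import Pool.Agent.Lib.MP_6947cd_al.LR.NUMC
import Pool.Agent.Lib.MP_6947cd_al.LR.One
import Pool.Agent.Lib.MP_6947cd_al.RankTwoMain

/-!
Problem MP_6947cd_al (Chollet), LOW RANK, the theorem for a pair of matrices: `rank A + rank B ≤ n / 2`,
or `rank A ≤ n / 7` and `B` arbitrary (or conversely).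

PROOF.  For a correlation matrix `A` with `R_i = ∑_j |a_ij|^2`, `x_i = 1 / R_i` (so `0 < x_i ≤ 1`,
`∑ x_i ≤ rank A`): `log per A ≥ ∑ lo (x_i)`, `log per A ≥ 0`, `log per (A ∘ conj A) ≤ ∑ up (x_i)`.  Since
`per (A ∘ B)^2 ≤ per (A ∘ conj A) per (B ∘ conj B)`, it is enough that
`2 log per A - ∑ up (x_i) + 2 log per B - ∑ up (y_i) ≥ 0`, and this is at least
`∑ F (x_i) + ∑ F (y_i)` and at least `∑ F (x_i) + ∑ H (y_i)`, with `F = 2 lo - up`, `H = (7/5) lo - up`.
-/

set_option autoImplicit false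

open MeasureTheory ProbabilityTheory Set Matrix
open scoped ENNReal ComplexConjugate ComplexOrder Matrix

namespace CholLR

open Pool.Agent.Lib.MP_6947cd_al

namespace FINCM

open OneM NUMCM

theorem perT_eq {n : ℕ} (A : Matrix (Fin n) (Fin n) ℂ) (hA : A.IsHermitian) :
    (A ⊙ Aᵀ).permanent.re = (Matrix.of fun i j => ‖A i j‖ ^ 2 : Matrix (Fin n) (Fin n) ℝ).permanent := by
  rw [permanent_hadamard_transpose hA]
  unfold permanent
  refine Finset.sum_congr rfl fun σ _ => ?_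
  rw [← Finset.prod_pow]
  rfl

/-- the three bounds for a correlation matrix -/
theorem unit_bounds (n : ℕ) (A : Matrix (Fin n) (Fin n) ℂ) (hA : A.PosSemidef)
    (hd : ∀ i, A i i = 1) :
    (∀ i, 1 ≤ ∑ j, ‖A i j‖ ^ 2) ∧ ∑ i, 1 / (∑ j, ‖A i j‖ ^ 2) ≤ (A.rank : ℝ) ∧
    1 ≤ A.permanent.re ∧
    ∑ i, lo (1 / (∑ j, ‖A i j‖ ^ 2)) ≤ Real.log A.permanent.re ∧
    (A ⊙ Aᵀ).permanent.re ≤ Real.exp (∑ i, up (1 / (∑ j, ‖A i j‖ ^ 2))) := by
  obtain ⟨W, lam, hl, hW, hsum, hK, hR1, hlog, hrk⟩ := specSPC n A hA hd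
  set R : Fin n → ℝ := fun i => ∑ j, ‖A i j‖ ^ 2 with hR
  have hR0 : ∀ i, 0 < R i := fun i => lt_of_lt_of_le one_pos (hR1 i)
  have hper : 1 ≤ A.permanent.re := one_le_permanent A hA hd
  have hper0 : 0 < A.permanent.re := by linarith
  refine ⟨hR1, hrk, hper, ?_, ?_⟩
  · have h1 := specJEO specLOG specCVO n W lam (fun i => 1 + R i) hl (fun i => (hK i).symm)
      (fun i => by have := hR0 i; positivity) (by rw [hW]; exact hper0)
    rw [hW, hsum] at h1
    have h3 : ∀ i, lo (1 / R i) = (Real.log (1 + R i) - Real.eulerMascheroniConstant)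
        + Real.log (1 + R i) / R i - 1 := by
      intro i
      have := (hR0 i).ne'
      unfold lo
      rw [one_div_one_div]
      field_simp
      ring
    have h4 : ∑ i, lo (1 / R i) = ∑ i, (Real.log (1 + R i) - Real.eulerMascheroniConstant)
        + ∑ i, Real.log (1 + R i) / R i - n := by
      simp only [h3]
      rw [Finset.sum_sub_distrib, Finset.sum_add_distrib, Finset.sum_const, Finset.card_univ,
        Fintype.card_fin, nsmul_eq_mul, mul_one]
    have h6 : ∑ i, Real.log (1 + R i) / R i ≤ ∑ k, Real.log (1 + lam k) := hlog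
    show ∑ i, lo (1 / R i) ≤ _
    linarith
  · rw [perT_eq A hA.1]
    refine (specTSB n (Matrix.of fun i j => ‖A i j‖ ^ 2) (fun i j => by rw [Matrix.of_apply]; positivity)
      (fun i j => ?_) (fun i => by simpa only [Matrix.of_apply] using hR1 i)).trans (le_of_eq ?_)
    · rw [Matrix.of_apply]
      have h7 := entry_le_one W (by rw [hW]; exact hd) i j
      rw [hW] at h7
      exact pow_le_one₀ (norm_nonneg _) h7
    · simp only [Matrix.of_apply]
      congr 1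
      refine Finset.sum_congr rfl fun i _ => ?_
      unfold up
      rw [one_div_one_div]

/-- Normalisation to the diagonal entries `1`. -/
theorem normaliseE {n : ℕ} (A : Matrix (Fin n) (Fin n) ℂ) (hA : A.PosSemidef)
    (h0 : ∀ i, A i i ≠ 0) : ∃ (A' : Matrix (Fin n) (Fin n) ℂ) (c : ℝ), A'.PosSemidef ∧
      (∀ i, A' i i = 1) ∧ A'.rank ≤ A.rank ∧
      (∀ i j, ‖A' i j‖ ^ 2 = ‖A i j‖ ^ 2 / ((A i i).re * (A j j).re)) ∧
      A.permanent.re = c * A'.permanent.re ∧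
      (A ⊙ Aᵀ).permanent.re = c ^ 2 * (A' ⊙ A'ᵀ).permanent.re := by
  have hdiag : ∀ i, 0 < (A i i).re ∧ A i i = ((A i i).re : ℂ) := by
    intro i
    obtain ⟨hre, him⟩ := Complex.nonneg_iff.mp (hA.diag_nonneg (i := i))
    have h2 : A i i = ((A i i).re : ℂ) := by
      apply Complex.ext
      · simp
      · simp [← him]
    refine ⟨lt_of_le_of_ne hre fun h => h0 i ?_, h2⟩
    rw [h2, ← h]; simp
  set s : Fin n → ℝ := fun i => Real.sqrt (A i i).re with hs
  have hspos : ∀ i, 0 < s i := fun i => Real.sqrt_pos.mpr (hdiag i).1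
  have hs2 : ∀ i, s i * s i = (A i i).re := fun i => Real.mul_self_sqrt (hdiag i).1.le
  set D : Matrix (Fin n) (Fin n) ℂ := diagonal fun i => (((s i)⁻¹ : ℝ) : ℂ) with hD
  have hA' := hA.conjTranspose_mul_mul_same D
  set A' := Dᴴ * A * D with hA'def
  have hA'apply : ∀ i j, A' i j = (((s i)⁻¹ : ℝ) : ℂ) * A i j * (((s j)⁻¹ : ℝ) : ℂ) := by
    intro i j
    rw [hA'def, hD, diagonal_conjTranspose, Matrix.mul_diagonal, Matrix.diagonal_mul]
    simp only [Pi.star_apply, Complex.star_def, Complex.conj_ofReal]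
  have hr' : A'.rank ≤ A.rank :=
    (rank_mul_le_left _ _).trans (rank_mul_le_right _ _)
  have hunit : ∀ i, A' i i = 1 := by
    intro i
    rw [hA'apply, (hdiag i).2, ← hs2]
    have : ((s i : ℝ) : ℂ) ≠ 0 := by exact_mod_cast (hspos i).ne'
    push_cast
    field_simp
  have hAs : A = Matrix.of fun i j => (s i : ℂ) * (s j : ℂ) * A' i j := by
    ext i j
    rw [Matrix.of_apply, hA'apply]
    have h1 : ((s i : ℝ) : ℂ) ≠ 0 := by exact_mod_cast (hspos i).ne'
    have h2 : ((s j : ℝ) : ℂ) ≠ 0 := by exact_mod_cast (hspos j).ne'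
    push_cast
    field_simp
  refine ⟨A', (∏ i, s i) ^ 2, hA', hunit, hr', ?_, ?_, ?_⟩
  · intro i j
    rw [hA'apply, norm_mul, norm_mul, Complex.norm_real, Complex.norm_real, Real.norm_eq_abs,
      Real.norm_eq_abs, abs_of_pos (inv_pos.2 (hspos i)), abs_of_pos (inv_pos.2 (hspos j)),
      ← hs2 i, ← hs2 j]
    have h1 := (hspos i).ne'
    have h2 := (hspos j).ne'
    field_simp
  · conv_lhs => rw [hAs]
    rw [permanent_scale, ← Complex.ofReal_prod, ← Complex.ofReal_pow, Complex.re_ofReal_mul]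
  · have : A ⊙ Aᵀ = Matrix.of fun i j => ((s i ^ 2 : ℝ) : ℂ) * ((s j ^ 2 : ℝ) : ℂ) *
        (A' ⊙ A'ᵀ) i j := by
      ext i j
      conv_lhs => rw [hAs]
      simp only [hadamard_apply, transpose_apply, Matrix.of_apply]
      push_cast
      ring
    rw [this, permanent_scale, ← Complex.ofReal_prod, ← Complex.ofReal_pow, Complex.re_ofReal_mul,
      Finset.prod_pow]

/-- Chollet's reduction for a pair. -/
theorem of_conj_pair {n : ℕ} (A B : Matrix (Fin n) (Fin n) ℂ) (hA : A.PosSemidef)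
    (hB : B.PosSemidef) (h3 : (A ⊙ Aᵀ).permanent.re * (B ⊙ Bᵀ).permanent.re
      ≤ A.permanent.re ^ 2 * B.permanent.re ^ 2) :
    (A ⊙ B).permanent ≤ A.permanent * B.permanent := by
  obtain ⟨hA0, hA1⟩ := permanent_nonneg_real hA
  obtain ⟨hB0, hB1⟩ := permanent_nonneg_real hB
  obtain ⟨hAB0, hAB1⟩ := permanent_nonneg_real (hA.hadamard hB)
  rw [hA1, hB1, hAB1]
  norm_cast
  have h1 : (A ⊙ B).permanent.re
      ≤ ∑ σ : Equiv.Perm (Fin n), (∏ i, ‖A (σ i) i‖) * (∏ i, ‖B (σ i) i‖) := by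
    calc (A ⊙ B).permanent.re ≤ ‖(A ⊙ B).permanent‖ := Complex.re_le_norm _
      _ ≤ ∑ σ : Equiv.Perm (Fin n), ‖∏ i, (A ⊙ B) (σ i) i‖ := norm_sum_le _ _
      _ = _ := by
        refine Finset.sum_congr rfl fun σ _ => ?_
        rw [norm_prod, ← Finset.prod_mul_distrib]
        refine Finset.prod_congr rfl fun i _ => ?_
        rw [hadamard_apply, norm_mul]
  have h2 := Finset.sum_mul_sq_le_sq_mul_sq (Finset.univ : Finset (Equiv.Perm (Fin n)))
    (fun σ => ∏ i, ‖A (σ i) i‖) (fun σ => ∏ i, ‖B (σ i) i‖)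
  rw [← permanent_hadamard_transpose hA.1, ← permanent_hadamard_transpose hB.1] at h2
  have h5 : (A ⊙ B).permanent.re ^ 2 ≤ (A.permanent.re * B.permanent.re) ^ 2 := by
    calc (A ⊙ B).permanent.re ^ 2
        ≤ (∑ σ : Equiv.Perm (Fin n), (∏ i, ‖A (σ i) i‖) * (∏ i, ‖B (σ i) i‖)) ^ 2 :=
          pow_le_pow_left₀ hAB0 h1 2
      _ ≤ (A ⊙ Aᵀ).permanent.re * (B ⊙ Bᵀ).permanent.re := h2
      _ ≤ A.permanent.re ^ 2 * B.permanent.re ^ 2 := h3
      _ = _ := by ring
  exact le_of_sq_le_sq h5 (by positivity)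

/-- the inequality for two correlation matrices -/
theorem unit_pair (n : ℕ) (A B : Matrix (Fin n) (Fin n) ℂ) (hA : A.PosSemidef)
    (hB : B.PosSemidef) (hdA : ∀ i, A i i = 1) (hdB : ∀ i, B i i = 1)
    (h : 2 * (∑ i, 1 / (∑ j, ‖A i j‖ ^ 2) + ∑ i, 1 / (∑ j, ‖B i j‖ ^ 2)) ≤ (n : ℝ) ∨
      7 * ∑ i, 1 / (∑ j, ‖A i j‖ ^ 2) ≤ (n : ℝ) ∨ 7 * ∑ i, 1 / (∑ j, ‖B i j‖ ^ 2) ≤ (n : ℝ)) :
    (A ⊙ Aᵀ).permanent.re * (B ⊙ Bᵀ).permanent.re ≤ A.permanent.re ^ 2 * B.permanent.re ^ 2 := by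
  obtain ⟨hA1, hA2, hA3, hA4, hA5⟩ := unit_bounds n A hA hdA
  obtain ⟨hB1, hB2, hB3, hB4, hB5⟩ := unit_bounds n B hB hdB
  set x : Fin n → ℝ := fun i => 1 / (∑ j, ‖A i j‖ ^ 2) with hx
  set y : Fin n → ℝ := fun i => 1 / (∑ j, ‖B i j‖ ^ 2) with hy
  have x0 : ∀ i, 0 < x i := fun i => by
    have := hA1 i
    simp only [hx]
    positivity
  have x1 : ∀ i, x i ≤ 1 := fun i => by
    have := hA1 i
    simp only [hx]
    rw [div_le_one (by linarith)]
    exact this
  have y0 : ∀ i, 0 < y i := fun i => by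
    have := hB1 i
    simp only [hy]
    positivity
  have y1 : ∀ i, y i ≤ 1 := fun i => by
    have := hB1 i
    simp only [hy]
    rw [div_le_one (by linarith)]
    exact this
  have lA : 0 ≤ Real.log A.permanent.re := Real.log_nonneg hA3
  have lB : 0 ≤ Real.log B.permanent.re := Real.log_nonneg hB3
  have hA4' : ∑ i, lo (x i) ≤ Real.log A.permanent.re := hA4
  have hB4' : ∑ i, lo (y i) ≤ Real.log B.permanent.re := hB4
  have sF : ∀ z : Fin n → ℝ, ∑ i, F (z i) = 2 * ∑ i, lo (z i) - ∑ i, up (z i) := by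
    intro z
    unfold F
    rw [Finset.sum_sub_distrib, ← Finset.mul_sum]
  have sH : ∀ z : Fin n → ℝ, ∑ i, H (z i) = 7 / 5 * ∑ i, lo (z i) - ∑ i, up (z i) := by
    intro z
    unfold H
    rw [Finset.sum_sub_distrib, ← Finset.mul_sum]
  have key : ∑ i, up (x i) + ∑ i, up (y i)
      ≤ 2 * Real.log A.permanent.re + 2 * Real.log B.permanent.re := by
    rcases h with h | h | h
    · have h1 := pair1 x y x0 x1 y0 y1 h
      rw [sF, sF] at h1
      linarith
    · have h1 := pair2 x y x0 x1 y0 y1 h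
      rw [sF, sH] at h1
      linarith
    · have h1 := pair2 y x y0 y1 x0 x1 h
      rw [sF, sH] at h1
      linarith
  have hT : 0 ≤ (B ⊙ Bᵀ).permanent.re := (permanent_nonneg_real (hB.hadamard hB.transpose)).1
  calc (A ⊙ Aᵀ).permanent.re * (B ⊙ Bᵀ).permanent.re
      ≤ Real.exp (∑ i, up (x i)) * Real.exp (∑ i, up (y i)) :=
        mul_le_mul hA5 hB5 hT (Real.exp_pos _).le
    _ = Real.exp (∑ i, up (x i) + ∑ i, up (y i)) := (Real.exp_add _ _).symm
    _ ≤ Real.exp (2 * Real.log A.permanent.re + 2 * Real.log B.permanent.re) :=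
        Real.exp_le_exp.2 key
    _ = A.permanent.re ^ 2 * B.permanent.re ^ 2 := by
        rw [Real.exp_add, two_mul, two_mul, Real.exp_add, Real.exp_add,
          Real.exp_log (by linarith), Real.exp_log (by linarith)]
        ring

end FINCM

open FINCM in
/-- Chollet's inequality for a pair of matrices one of which, or both, are of small rank (or have large
normalised row sums of squares). -/
theorem low_rank_pair (n : ℕ) (A B : Matrix (Fin n) (Fin n) ℂ) (hA : A.PosSemidef)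
    (hB : B.PosSemidef) (a b : ℝ)
    (ha : a = A.rank ∨ a = ∑ i, (∑ j, ‖A i j‖ ^ 2 / ((A i i).re * (A j j).re))⁻¹)
    (hb : b = B.rank ∨ b = ∑ i, (∑ j, ‖B i j‖ ^ 2 / ((B i i).re * (B j j).re))⁻¹)
    (h : 2 * (a + b) ≤ n ∨ 7 * a ≤ n ∨ 7 * b ≤ n) :
    (A ⊙ B).permanent ≤ A.permanent * B.permanent := by
  have hz : ∀ (C D : Matrix (Fin n) (Fin n) ℂ), C.PosSemidef → (∃ i, C i i = 0) →
      (C ⊙ D).permanent = 0 := by
    rintro C D hC ⟨i, hi⟩
    unfold permanent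
    refine Finset.sum_eq_zero fun σ _ => Finset.prod_eq_zero (Finset.mem_univ i) ?_
    rw [hadamard_apply, col_eq_zero hC i hi, zero_mul]
  have hpos : 0 ≤ A.permanent * B.permanent := by
    obtain ⟨hA0, hA1⟩ := permanent_nonneg_real hA
    obtain ⟨hB0, hB1⟩ := permanent_nonneg_real hB
    rw [hA1, hB1]
    norm_cast
    positivity
  by_cases hA0 : ∃ i, A i i = 0
  · rw [hz A B hA hA0]
    exact hpos
  by_cases hB0 : ∃ i, B i i = 0
  · rw [hadamard_comm, hz B A hB hB0]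
    exact hpos
  push Not at hA0 hB0
  obtain ⟨A', c, hA', hdA, hrA, hentA, hpA, hqA⟩ := normaliseE A hA hA0
  obtain ⟨B', d, hB', hdB, hrB, hentB, hpB, hqB⟩ := normaliseE B hB hB0
  have ha' : ∑ i, 1 / (∑ j, ‖A' i j‖ ^ 2) ≤ a := by
    rcases ha with ha | ha
    · rw [ha]
      refine (unit_bounds n A' hA' hdA).2.1.trans ?_
      exact_mod_cast hrA
    · rw [ha]
      simp only [hentA, one_div]
      exact le_rfl
  have hb' : ∑ i, 1 / (∑ j, ‖B' i j‖ ^ 2) ≤ b := by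
    rcases hb with hb | hb
    · rw [hb]
      refine (unit_bounds n B' hB' hdB).2.1.trans ?_
      exact_mod_cast hrB
    · rw [hb]
      simp only [hentB, one_div]
      exact le_rfl
  refine of_conj_pair A B hA hB ?_
  have h1 := unit_pair n A' B' hA' hB' hdA hdB (by
    rcases h with h | h | h
    · left; linarith
    · right; left; linarith
    · right; right; linarith)
  rw [hpA, hpB, hqA, hqB]
  calc c ^ 2 * (A' ⊙ A'ᵀ).permanent.re * (d ^ 2 * (B' ⊙ B'ᵀ).permanent.re)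
      = (c ^ 2 * d ^ 2) * ((A' ⊙ A'ᵀ).permanent.re * (B' ⊙ B'ᵀ).permanent.re) := by ring
    _ ≤ (c ^ 2 * d ^ 2) * (A'.permanent.re ^ 2 * B'.permanent.re ^ 2) :=
        mul_le_mul_of_nonneg_left h1 (by positivity)
    _ = _ := by ring

end CholLR
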