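import Pool.Agent.Lib.MP_6947cd_al.LR.Spec
import Pool.Agent.Lib.MP_6947cd_al.B.Wick

/-! # Module LOG: the mean of the logarithm of a squared Gaussian -/

set_option autoImplicit false

open MeasureTheory ProbabilityTheory Set Matrix
open scoped ENNReal ComplexConjugate ComplexOrder Topology

namespace CholLR

open MPf1e3 (cg G GM nsq)

namespace LOGM

/-- `∫ e^{-x} log x = -γ` -/
theorem val : ∫ x in Ioi (0 : ℝ), Real.exp (-x) * Real.log x = -Real.eulerMascheroniConstant := by
  have h1 := Complex.hasDerivAt_GammaIntegral (s := 1) (by norm_num)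
  have h2 : HasDerivAt Complex.Gamma (-(Real.eulerMascheroniConstant : ℂ)) 1 :=
    Complex.hasDerivAt_Gamma_one
  have h3 : HasDerivAt Complex.GammaIntegral (-(Real.eulerMascheroniConstant : ℂ)) 1 := by
    refine h2.congr_of_eventuallyEq ?_
    have : {s : ℂ | 0 < s.re} ∈ 𝓝 (1 : ℂ) :=
      (isOpen_lt continuous_const Complex.continuous_re).mem_nhds (by simp)
    filter_upwards [this] with s hs
    exact (Complex.Gamma_eq_integral hs).symm
  have h4 := h1.unique h3
  have h5 : (∫ t in Ioi (0 : ℝ), (t : ℂ) ^ ((1 : ℂ) - 1) * (Real.log t * Real.exp (-t)))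
      = ((∫ x in Ioi (0 : ℝ), Real.exp (-x) * Real.log x : ℝ) : ℂ) := by
    rw [← integral_complex_ofReal]
    refine setIntegral_congr_fun measurableSet_Ioi (fun x hx => ?_)
    have : ((1 : ℂ) - 1) = 0 := by norm_num
    simp only [this, Complex.cpow_zero]
    push_cast
    ring
  rw [h5] at h4
  exact_mod_cast h4

theorem int : IntegrableOn (fun x : ℝ => Real.exp (-x) * Real.log x) (Ioi 0) := by
  by_contra h
  have h1 := val
  rw [integral_undef h] at h1
  have := Real.one_half_lt_eulerMascheroniConstant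
  linarith

/-- the law of the squared norm -/
theorem map_eq : cg.map (fun z : ℂ => ‖z‖ ^ 2) =
    ((volume : Measure ℝ).restrict (Ioi 0)).withDensity (MPf1e3.GamM.dens 0) := by
  ext s hs
  rw [withDensity_apply _ hs, Measure.map_apply (by fun_prop) hs]
  have h1 := MPf1e3.GamM.base MPf1e3.specProb (s.indicator 1) (measurable_one.indicator hs)
  have h2 : ∫⁻ z, s.indicator (1 : ℝ → ℝ≥0∞) (‖z‖ ^ 2) ∂cg =
      cg ((fun z : ℂ => ‖z‖ ^ 2) ⁻¹' s) := by
    rw [← lintegral_indicator_one ((by fun_prop : Measurable (fun z : ℂ => ‖z‖ ^ 2)) hs)]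
    rfl
  rw [← h2, h1, ← lintegral_indicator hs]
  refine lintegral_congr fun y => ?_
  by_cases hy : y ∈ s
  · rw [indicator_of_mem hy, indicator_of_mem hy, Pi.one_apply, one_mul]
  · rw [indicator_of_notMem hy, indicator_of_notMem hy, zero_mul]

theorem dens_toReal (y : ℝ) : (MPf1e3.GamM.dens 0 y).toReal = 1 / 2 * Real.exp (-(1 / 2 * y)) := by
  unfold MPf1e3.GamM.dens
  rw [ENNReal.toReal_ofReal (by positivity)]
  simp only [pow_zero, one_mul, zero_add, pow_one, Nat.factorial_zero, Nat.cast_one, mul_one]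
  rw [show -(y / 2) = -(1 / 2 * y) by ring]
  ring

theorem smul_eq (y : ℝ) : (MPf1e3.GamM.dens 0 y).toReal • Real.log (y / 2) =
    1 / 2 * (fun x : ℝ => Real.exp (-x) * Real.log x) (1 / 2 * y) := by
  rw [dens_toReal, smul_eq_mul]
  show 1 / 2 * Real.exp (-(1 / 2 * y)) * Real.log (y / 2) =
    1 / 2 * (Real.exp (-(1 / 2 * y)) * Real.log (1 / 2 * y))
  rw [show y / 2 = 1 / 2 * y by ring]
  ring

end LOGM

open LOGM in
theorem specLOG : SpecLOG := by
  have hm : Measurable (fun z : ℂ => ‖z‖ ^ 2) := by fun_prop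
  have hg : Measurable (fun y : ℝ => Real.log (y / 2)) := by fun_prop
  have hd := MPf1e3.GamM.meas_dens 0
  have hfin : ∀ᵐ y ∂((volume : Measure ℝ).restrict (Ioi 0)), MPf1e3.GamM.dens 0 y < ∞ :=
    Filter.Eventually.of_forall fun y => ENNReal.ofReal_lt_top
  have hint : Integrable (fun y : ℝ => (MPf1e3.GamM.dens 0 y).toReal • Real.log (y / 2))
      ((volume : Measure ℝ).restrict (Ioi 0)) := by
    simp_rw [smul_eq]
    refine Integrable.const_mul ?_ _
    have h1 := (integrableOn_Ioi_comp_mul_left_iff (fun x : ℝ => Real.exp (-x) * Real.log x) 0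
      (a := 1 / 2) (by norm_num)).2 (by rw [mul_zero]; exact int)
    exact h1
  have hi : Integrable (fun y : ℝ => Real.log (y / 2)) (cg.map (fun z : ℂ => ‖z‖ ^ 2)) := by
    rw [map_eq, integrable_withDensity_iff_integrable_smul' hd hfin]
    exact hint
  refine ⟨?_, ?_, ?_⟩
  · exact (integrable_map_measure hg.aestronglyMeasurable hm.aemeasurable).1 hi
  · have h1 := integral_map (μ := cg) hm.aemeasurable
      (f := fun y : ℝ => Real.log (y / 2)) hg.aestronglyMeasurable
    rw [← h1, map_eq, integral_withDensity_eq_integral_toReal_smul hd hfin]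
    simp_rw [smul_eq]
    rw [integral_const_mul, integral_comp_mul_left_Ioi (fun x : ℝ => Real.exp (-x) * Real.log x) 0
      (by norm_num : (0 : ℝ) < 1 / 2), mul_zero, val, smul_eq_mul]
    ring
  · rw [MPf1e3.ProbM.cg_eq]
    exact withDensity_absolutelyContinuous _ _ (measure_singleton 0)

end CholLR
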