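import Pool.Agent.Lib.MP_6947cd_al.LR.Spec
import Pool.Agent.Lib.Interval.Gamma

/-!
# Module NUM: the convex function of one variable
-/

set_option autoImplicit false

open MeasureTheory ProbabilityTheory Set Matrix
open scoped ENNReal ComplexConjugate ComplexOrder

namespace CholLR

namespace NUMM

/-- the function -/
noncomputable def f (x : ℝ) : ℝ := (1 + 2 * x) * Real.log (1 + 1 / x)

/-- its derivative -/
noncomputable def f' (x : ℝ) : ℝ := 2 * Real.log (1 + 1 / x) - 1 / x - 1 / (1 + x)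

/-- its second derivative -/
noncomputable def f'' (x : ℝ) : ℝ := 1 / (x ^ 2 * (1 + x) ^ 2)

lemma deriv_log {x : ℝ} (hx : 0 < x) :
    HasDerivAt (fun y : ℝ => Real.log (1 + 1 / y)) (-(1 / (x * (1 + x)))) x := by
  have h1 : HasDerivAt (fun y : ℝ => 1 + 1 / y) (-(1 / x ^ 2)) x := by
    have h0 : HasDerivAt (fun y : ℝ => y⁻¹) (-(x ^ 2)⁻¹) x := hasDerivAt_inv hx.ne'
    have h2 := h0.const_add 1
    simpa only [one_div] using h2
  have hpos : 0 < 1 + 1 / x := by positivity
  have h3 := h1.log hpos.ne'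
  convert h3 using 1
  field_simp
  ring

lemma deriv_f {x : ℝ} (hx : 0 < x) : HasDerivAt f (f' x) x := by
  have h1 : HasDerivAt (fun y : ℝ => 1 + 2 * y) 2 x := by
    have := ((hasDerivAt_id x).const_mul 2).const_add 1
    simpa using this
  have h2 := h1.mul (deriv_log hx)
  have e : f' x = 2 * Real.log (1 + 1 / x) + (1 + 2 * x) * (-(1 / (x * (1 + x)))) := by
    unfold f'
    have hx1 : (1 + x) ≠ 0 := by positivity
    field_simp
    ring
  rw [e]
  exact h2

lemma deriv_f' {x : ℝ} (hx : 0 < x) : HasDerivAt f' (f'' x) x := by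
  have h0 : HasDerivAt (fun y : ℝ => 1 / y) (-(1 / x ^ 2)) x := by
    have h0 : HasDerivAt (fun y : ℝ => y⁻¹) (-(x ^ 2)⁻¹) x := hasDerivAt_inv hx.ne'
    simpa only [one_div] using h0
  have h1 : HasDerivAt (fun y : ℝ => 1 / (1 + y)) (-(1 / (1 + x) ^ 2)) x := by
    have hx1 : (1 + x) ≠ 0 := by positivity
    have h2 : HasDerivAt (fun y : ℝ => 1 + y) 1 x := (hasDerivAt_id x).const_add 1
    have h3 : HasDerivAt (fun y : ℝ => (1 + y)⁻¹) (-1 / (1 + x) ^ 2) x := h2.inv hx1
    have h4 : HasDerivAt (fun y : ℝ => 1 / (1 + y)) (-1 / (1 + x) ^ 2) x := by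
      simpa only [one_div] using h3
    rwa [neg_div] at h4
  have h2 := (((deriv_log hx).const_mul 2).sub h0).sub h1
  have e : f'' x = 2 * (-(1 / (x * (1 + x)))) - (-(1 / x ^ 2)) - (-(1 / (1 + x) ^ 2)) := by
    unfold f''
    have hx1 : (1 + x) ≠ 0 := by positivity
    field_simp
    ring
  rw [e]
  exact h2

lemma convex_f : ConvexOn ℝ (Ioi (0 : ℝ)) f := by
  refine convexOn_of_hasDerivWithinAt2_nonneg (f' := f') (f'' := f'') (convex_Ioi 0) ?_ ?_ ?_ ?_
  · intro x hx
    exact (deriv_f hx).continuousAt.continuousWithinAt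
  · intro x hx
    rw [interior_Ioi] at hx
    exact (deriv_f hx).hasDerivWithinAt
  · intro x hx
    rw [interior_Ioi] at hx
    exact (deriv_f' hx).hasDerivWithinAt
  · intro x hx
    rw [interior_Ioi] at hx
    have hx0 : (0 : ℝ) < x := hx
    unfold f''
    positivity

/-- the tangent -/
lemma tangent {a x : ℝ} (ha : 0 < a) (hx : 0 < x) : f a + f' a * (x - a) ≤ f x := by
  rcases lt_trichotomy a x with h | h | h
  · have h1 := convex_f.le_slope_of_hasDerivAt (mem_Ioi.mpr ha) (mem_Ioi.mpr hx) h (deriv_f ha)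
    rw [slope_def_field, le_div_iff₀ (by linarith)] at h1
    linarith
  · rw [h]; simp
  · have h1 := convex_f.slope_le_of_hasDerivAt (mem_Ioi.mpr hx) (mem_Ioi.mpr ha) h (deriv_f ha)
    rw [slope_def_field, div_le_iff₀ (by linarith)] at h1
    linarith

lemma log_lower : (1.7047 : ℝ) ≤ Real.log (1 + 1 / (2 / 9)) := by
  have e : (1 : ℝ) + 1 / (2 / 9) = 2 * 2 * (11 / 8) := by norm_num
  have h1 := Real.sum_range_le_log_div (x := 3 / 19) (by norm_num) (by norm_num) 2
  have e2 : (1 + (3 / 19 : ℝ)) / (1 - 3 / 19) = 11 / 8 := by norm_num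
  rw [e2] at h1
  norm_num [Finset.sum_range_succ] at h1
  have h2 := Real.log_two_gt_d9
  rw [e, Real.log_mul (by norm_num) (by norm_num), Real.log_mul (by norm_num) (by norm_num)]
  linarith

lemma log_upper : Real.log (1 + 1 / (2 / 9)) ≤ (2 : ℝ) := by
  have e : (1 : ℝ) + 1 / (2 / 9) = 2 * 2 * (11 / 8) := by norm_num
  have h1 := Real.log_le_sub_one_of_pos (show (0 : ℝ) < 11 / 8 by norm_num)
  have h2 := Real.log_two_lt_d9
  rw [e, Real.log_mul (by norm_num) (by norm_num), Real.log_mul (by norm_num) (by norm_num)]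
  linarith

end NUMM

theorem specNUM : SpecNUM := by
  intro n x hx hsum
  have hterm : ∀ i, 2 * ((1 + x i) * Real.log (1 + 1 / x i) - 1 - Real.eulerMascheroniConstant)
      - Real.log ((1 + 1 / x i) / 2) =
      NUMM.f (x i) - 2 - 2 * Real.eulerMascheroniConstant + Real.log 2 := by
    intro i
    have hpos : 0 < 1 + 1 / x i := by
      have := hx i
      positivity
    rw [Real.log_div hpos.ne' (by norm_num)]
    unfold NUMM.f
    ring
  simp only [hterm]
  have hf' : NUMM.f' (2 / 9) ≤ 0 := by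
    unfold NUMM.f'
    have := NUMM.log_upper
    norm_num at this ⊢
    linarith
  have hf : 2.4622 ≤ NUMM.f (2 / 9) := by
    unfold NUMM.f
    have := NUMM.log_lower
    norm_num at this ⊢
    linarith
  have hg := IA.gamma_lt
  have h2 := Real.log_two_gt_d9
  have hc : 0 ≤ NUMM.f (2 / 9) - 2 - 2 * Real.eulerMascheroniConstant + Real.log 2 := by
    norm_num at hg hf h2 ⊢
    linarith
  have hlow : ∑ i, (NUMM.f (2 / 9) + NUMM.f' (2 / 9) * (x i - 2 / 9) - 2
      - 2 * Real.eulerMascheroniConstant + Real.log 2) ≤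
      ∑ i, (NUMM.f (x i) - 2 - 2 * Real.eulerMascheroniConstant + Real.log 2) := by
    refine Finset.sum_le_sum (fun i _ => ?_)
    have := NUMM.tangent (a := 2 / 9) (by norm_num) (hx i)
    linarith
  refine le_trans ?_ hlow
  have e : ∑ i, (NUMM.f (2 / 9) + NUMM.f' (2 / 9) * (x i - 2 / 9) - 2
      - 2 * Real.eulerMascheroniConstant + Real.log 2) =
      n * (NUMM.f (2 / 9) - 2 - 2 * Real.eulerMascheroniConstant + Real.log 2) +
        NUMM.f' (2 / 9) * (∑ i, x i - 2 * n / 9) := by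
    have e1 : ∀ i, NUMM.f (2 / 9) + NUMM.f' (2 / 9) * (x i - 2 / 9) - 2
        - 2 * Real.eulerMascheroniConstant + Real.log 2 =
        (NUMM.f (2 / 9) - 2 - 2 * Real.eulerMascheroniConstant + Real.log 2 -
          NUMM.f' (2 / 9) * (2 / 9)) + NUMM.f' (2 / 9) * x i := by
      intro i
      ring
    simp only [e1]
    rw [Finset.sum_add_distrib, ← Finset.mul_sum, Finset.sum_const, Finset.card_univ, Fintype.card_fin,
      nsmul_eq_mul]
    ring
  rw [e]
  have h3 : 0 ≤ (n : ℝ) * (NUMM.f (2 / 9) - 2 - 2 * Real.eulerMascheroniConstant + Real.log 2) := by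
    positivity
  have h4 : 0 ≤ NUMM.f' (2 / 9) * (∑ i, x i - 2 * n / 9) := by
    refine mul_nonneg_of_nonpos_of_nonpos hf' ?_
    linarith
  linarith

end CholLR
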