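import Pool.Agent.Lib.MP_6947cd_al.LR.SpecB
import Pool.Agent.Lib.Interval.Gamma

/-!
# Module NUMB: the convex function of one variable, second version
-/

set_option autoImplicit false

open MeasureTheory Set Matrix

namespace CholLR

namespace NUMBM

/-- the function -/
noncomputable def g (x : ℝ) : ℝ :=
  (2 + 2 * x) * Real.log (1 + 1 / x) + Real.log x - 1 / 2 * Real.log (1 + 4 * x + x ^ 2)

/-- its derivative -/
noncomputable def g' (x : ℝ) : ℝ :=
  2 * Real.log (1 + 1 / x) - 1 / x - (2 + x) / (1 + 4 * x + x ^ 2)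

/-- its second derivative -/
noncomputable def g'' (x : ℝ) : ℝ :=
  (1 - x) / (x ^ 2 * (1 + x)) + (7 + 4 * x + x ^ 2) / (1 + 4 * x + x ^ 2) ^ 2

lemma deriv_log {x : ℝ} (hx : 0 < x) :
    HasDerivAt (fun y : ℝ => Real.log (1 + 1 / y)) (-(1 / (x * (1 + x)))) x := by
  have h1 : HasDerivAt (fun y : ℝ => 1 + 1 / y) (-(1 / x ^ 2)) x := by
    have h0 : HasDerivAt (fun y : ℝ => y⁻¹) (-(x ^ 2)⁻¹) x := hasDerivAt_inv hx.ne'
    have h2 := h0.const_add 1
    simpa only [one_div] using h2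
  have hpos : 0 < 1 + 1 / x := by positivity
  have h3 := h1.log hpos.ne'
  have e : -(1 / (x * (1 + x))) = -(1 / x ^ 2) / (1 + 1 / x) := by
    field_simp
    ring
  rw [e]
  exact h3

lemma deriv_q (x : ℝ) : HasDerivAt (fun y : ℝ => 1 + 4 * y + y ^ 2) (4 + 2 * x) x := by
  have h1 : HasDerivAt (fun y : ℝ => 1 + 4 * y) 4 x := by
    have := ((hasDerivAt_id x).const_mul 4).const_add 1
    simpa using this
  have h2 : HasDerivAt (fun y : ℝ => y ^ 2) (2 * x) x := by
    have := hasDerivAt_pow 2 x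
    simpa using this
  exact h1.add h2

lemma q_pos {x : ℝ} (hx : 0 < x) : 0 < 1 + 4 * x + x ^ 2 := by positivity

lemma deriv_g {x : ℝ} (hx : 0 < x) : HasDerivAt g (g' x) x := by
  have h1 : HasDerivAt (fun y : ℝ => 2 + 2 * y) 2 x := by
    have := ((hasDerivAt_id x).const_mul 2).const_add 2
    simpa using this
  have h2 := h1.mul (deriv_log hx)
  have h3 := Real.hasDerivAt_log hx.ne'
  have h4 := ((deriv_q x).log (q_pos hx).ne').const_mul (1 / 2)
  have h5 := (h2.add h3).sub h4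
  have e : g' x = 2 * Real.log (1 + 1 / x) + (2 + 2 * x) * (-(1 / (x * (1 + x)))) + x⁻¹ -
      1 / 2 * ((4 + 2 * x) / (1 + 4 * x + x ^ 2)) := by
    unfold g'
    have hx1 : (1 + x) ≠ 0 := by positivity
    have hq := (q_pos hx).ne'
    field_simp
    ring
  rw [e]
  exact h5

lemma deriv_g' {x : ℝ} (hx : 0 < x) : HasDerivAt g' (g'' x) x := by
  have h0 : HasDerivAt (fun y : ℝ => 1 / y) (-(1 / x ^ 2)) x := by
    have h0 : HasDerivAt (fun y : ℝ => y⁻¹) (-(x ^ 2)⁻¹) x := hasDerivAt_inv hx.ne'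
    simpa only [one_div] using h0
  have h1 : HasDerivAt (fun y : ℝ => 2 + y) 1 x := (hasDerivAt_id x).const_add 2
  have h2 := h1.div (deriv_q x) (q_pos hx).ne'
  have h3 := (((deriv_log hx).const_mul 2).sub h0).sub h2
  have e : g'' x = 2 * (-(1 / (x * (1 + x)))) - (-(1 / x ^ 2)) -
      (1 * (1 + 4 * x + x ^ 2) - (2 + x) * (4 + 2 * x)) / (1 + 4 * x + x ^ 2) ^ 2 := by
    unfold g''
    have hx1 : (1 + x) ≠ 0 := by positivity
    have hq := (q_pos hx).ne'
    field_simp
    ring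
  rw [e]
  exact h3

lemma convex_g : ConvexOn ℝ (Ioc (0 : ℝ) 1) g := by
  refine convexOn_of_hasDerivWithinAt2_nonneg (f' := g') (f'' := g'') (convex_Ioc 0 1) ?_ ?_ ?_ ?_
  · intro x hx
    exact (deriv_g hx.1).continuousAt.continuousWithinAt
  · intro x hx
    rw [interior_Ioc] at hx
    exact (deriv_g hx.1).hasDerivWithinAt
  · intro x hx
    rw [interior_Ioc] at hx
    exact (deriv_g' hx.1).hasDerivWithinAt
  · intro x hx
    rw [interior_Ioc] at hx
    have hx0 : (0 : ℝ) < x := hx.1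
    have hx1 : 0 ≤ 1 - x := by linarith [hx.2]
    unfold g''
    positivity

/-- the tangent -/
lemma tangent {a x : ℝ} (ha : 0 < a) (ha1 : a ≤ 1) (hx : 0 < x) (hx1 : x ≤ 1) :
    g a + g' a * (x - a) ≤ g x := by
  rcases lt_trichotomy a x with h | h | h
  · have h1 := convex_g.le_slope_of_hasDerivAt (mem_Ioc.mpr ⟨ha, ha1⟩) (mem_Ioc.mpr ⟨hx, hx1⟩) h
      (deriv_g ha)
    rw [slope_def_field, le_div_iff₀ (by linarith)] at h1
    linarith
  · rw [h]; simp
  · have h1 := convex_g.slope_le_of_hasDerivAt (mem_Ioc.mpr ⟨hx, hx1⟩) (mem_Ioc.mpr ⟨ha, ha1⟩) h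
      (deriv_g ha)
    rw [slope_def_field, div_le_iff₀ (by linarith)] at h1
    linarith

lemma log5_lower : (1.6094 : ℝ) ≤ Real.log 5 := by
  have e : (5 : ℝ) = 2 * 2 * (5 / 4) := by norm_num
  have h1 := Real.sum_range_le_log_div (x := 1 / 9) (by norm_num) (by norm_num) 2
  have e2 : (1 + (1 / 9 : ℝ)) / (1 - 1 / 9) = 5 / 4 := by norm_num
  rw [e2] at h1
  norm_num [Finset.sum_range_succ] at h1
  have h2 := Real.log_two_gt_d9
  rw [e, Real.log_mul (by norm_num) (by norm_num), Real.log_mul (by norm_num) (by norm_num)]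
  linarith

lemma log5_upper : Real.log 5 ≤ (2 : ℝ) := by
  have e : (5 : ℝ) = 2 * 2 * (5 / 4) := by norm_num
  have h1 := Real.log_le_sub_one_of_pos (show (0 : ℝ) < 5 / 4 by norm_num)
  have h2 := Real.log_two_lt_d9
  rw [e, Real.log_mul (by norm_num) (by norm_num), Real.log_mul (by norm_num) (by norm_num)]
  linarith

lemma log_upper : Real.log (11 / 2) ≤ (1.7316 : ℝ) := by
  have e : (11 / 2 : ℝ) = 2 * 2 * ((7 / 6) * (33 / 28)) := by norm_num
  have h1 := Real.log_le_sub_one_of_pos (show (0 : ℝ) < 7 / 6 by norm_num)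
  have h1' := Real.log_le_sub_one_of_pos (show (0 : ℝ) < 33 / 28 by norm_num)
  have h2 := Real.log_two_lt_d9
  rw [e, Real.log_mul (by norm_num) (by norm_num), Real.log_mul (by norm_num) (by norm_num),
    Real.log_mul (by norm_num) (by norm_num)]
  norm_num at h1 h1' h2 ⊢
  linarith

lemma value : g (1 / 4) + 1 / 2 * Real.log 6 = 5 / 2 * Real.log 5 - 1 / 2 * Real.log (11 / 2) := by
  unfold g
  have e1 : (1 : ℝ) + 1 / (1 / 4) = 5 := by norm_num
  have e2 : (1 : ℝ) + 4 * (1 / 4) + (1 / 4) ^ 2 = (11 / 2 * 6) / (4 * 4) := by norm_num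
  have e3 : Real.log (1 / 4) = - Real.log 4 := by rw [one_div, Real.log_inv]
  rw [e1, e2, e3, Real.log_div (by norm_num) (by norm_num), Real.log_mul (by norm_num) (by norm_num),
    Real.log_mul (by norm_num) (by norm_num)]
  ring

end NUMBM

theorem specNUMB : SpecNUMB := by
  intro n x hx hx1 hsum
  have hterm : ∀ i, 2 * ((1 + x i) * Real.log (1 + 1 / x i) - 1 - Real.eulerMascheroniConstant)
      - 1 / 2 * Real.log (((1 / x i) ^ 2 + 4 * (1 / x i) + 1) / 6) =
      NUMBM.g (x i) - 2 - 2 * Real.eulerMascheroniConstant + 1 / 2 * Real.log 6 := by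
    intro i
    have hxi := hx i
    have hq := NUMBM.q_pos hxi
    have e : ((1 / x i) ^ 2 + 4 * (1 / x i) + 1) / 6 =
        (1 + 4 * x i + x i ^ 2) / (x i * x i * 6) := by
      field_simp
    rw [e, Real.log_div hq.ne' (by positivity), Real.log_mul (by positivity) (by norm_num),
      Real.log_mul hxi.ne' hxi.ne']
    unfold NUMBM.g
    ring
  simp only [hterm]
  have hg' : NUMBM.g' (1 / 4) ≤ 0 := by
    unfold NUMBM.g'
    have h := NUMBM.log5_upper
    have e1 : (1 : ℝ) + 1 / (1 / 4) = 5 := by norm_num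
    rw [e1]
    norm_num
    linarith
  have hc : 0 ≤ NUMBM.g (1 / 4) - 2 - 2 * Real.eulerMascheroniConstant + 1 / 2 * Real.log 6 := by
    have hv := NUMBM.value
    have h1 := NUMBM.log5_lower
    have h2 := NUMBM.log_upper
    have h3 := IA.gamma_lt
    norm_num at h1 h2 h3 hv ⊢
    linarith
  have hlow : ∑ i, (NUMBM.g (1 / 4) + NUMBM.g' (1 / 4) * (x i - 1 / 4) - 2
      - 2 * Real.eulerMascheroniConstant + 1 / 2 * Real.log 6) ≤
      ∑ i, (NUMBM.g (x i) - 2 - 2 * Real.eulerMascheroniConstant + 1 / 2 * Real.log 6) := by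
    refine Finset.sum_le_sum (fun i _ => ?_)
    have := NUMBM.tangent (a := 1 / 4) (by norm_num) (by norm_num) (hx i) (hx1 i)
    linarith
  refine le_trans ?_ hlow
  have e : ∑ i, (NUMBM.g (1 / 4) + NUMBM.g' (1 / 4) * (x i - 1 / 4) - 2
      - 2 * Real.eulerMascheroniConstant + 1 / 2 * Real.log 6) =
      n * (NUMBM.g (1 / 4) - 2 - 2 * Real.eulerMascheroniConstant + 1 / 2 * Real.log 6) +
        NUMBM.g' (1 / 4) * (∑ i, x i - n / 4) := by
    have e1 : ∀ i, NUMBM.g (1 / 4) + NUMBM.g' (1 / 4) * (x i - 1 / 4) - 2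
        - 2 * Real.eulerMascheroniConstant + 1 / 2 * Real.log 6 =
        (NUMBM.g (1 / 4) - 2 - 2 * Real.eulerMascheroniConstant + 1 / 2 * Real.log 6 -
          NUMBM.g' (1 / 4) * (1 / 4)) + NUMBM.g' (1 / 4) * x i := by
      intro i
      ring
    simp only [e1]
    rw [Finset.sum_add_distrib, ← Finset.mul_sum, Finset.sum_const, Finset.card_univ, Fintype.card_fin,
      nsmul_eq_mul]
    ring
  rw [e]
  have h3 : 0 ≤ (n : ℝ) * (NUMBM.g (1 / 4) - 2 - 2 * Real.eulerMascheroniConstant +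
      1 / 2 * Real.log 6) := by
    positivity
  have h4 : 0 ≤ NUMBM.g' (1 / 4) * (∑ i, x i - n / 4) := by
    refine mul_nonneg_of_nonpos_of_nonpos hg' ?_
    linarith
  linarith

end CholLR
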