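import Pool.Agent.Lib.MP_6947cd_al.B.SpecS

/-!
Problem MP_6947cd_al (Chollet), LOW RANK: specification (captain helper95).

THEOREM LR.  Chollet's inequality `per (A ∘ B) ≤ per A * per B` holds for all `n` and all positive
semidefinite `A`, `B` of order `n` and of rank `≤ 2 n / 9`.
PROOF (ideas row 792, helper11): for a correlation matrix `A`, `R_i = ∑_j |a_ij|^2`:
`log per A ≥ ∑_i ((1 + 1/R_i) log (1 + R_i) - 1 - γ)` (JEO + SPC: Gaussian trial law with covariance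
`1 + A`), `log per (A ∘ conj A) ≤ ∑_i log ((1 + R_i)/2)` (Minc, `Upper.lean`), `∑_i 1/R_i ≤ rank A`
(SPC), and the function of NUM is convex in `x = 1/R`.

CONVENTIONS.  Module `XXX` = file `LR/XXX.lean`, imports `Pool.Agent.Lib.MP_6947cd_al.LR.Spec` and the
files named in its docstring, namespace `CholLR`, `theorem specXXX (hYYY : SpecYYY) .. : SpecXXX`
(deps in the order of USES), own lemmas in the namespace `CholLR.XXXM`.
`cg`, `G n`, `nsq`: see `B/Defs.lean` (complex Gaussian with `E |z|^2 = 2`, its `n`-fold product).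
-/

set_option autoImplicit false

open MeasureTheory ProbabilityTheory Set Matrix
open scoped ENNReal ComplexConjugate ComplexOrder

namespace CholLR

open MPf1e3 (cg G GM nsq)

/-- LOG, 90 lines.  May import `Pool.Agent.Lib.MP_6947cd_al.B.Wick` and `.W.G`.
PROOF.  The law of `‖z‖^2` under `cg` has the density `exp (-y/2)/2` (`MPf1e3.GamM.base
MPf1e3.specProb`, used in `WickM.lint_pow`), so `x = ‖z‖^2/2` has the law `exp (-x)`, `x > 0`, and the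
value is `∫ x > 0, log x * exp (-x) = -γ` (Mathlib: `Complex.hasDerivAt_GammaIntegral` /
`Real.eulerMascheroniConstant_eq_neg_deriv`, `deriv Real.Gamma 1 = -γ`; or as `L0_zero`,
`val_log` in `W/G.lean` and one integration by parts).  `cg {0} = 0`: `cg` is absolutely continuous. -/
def SpecLOG : Prop := Integrable (fun z : ℂ => Real.log (‖z‖ ^ 2 / 2)) cg ∧
  ∫ z, Real.log (‖z‖ ^ 2 / 2) ∂cg = -Real.eulerMascheroniConstant ∧ cg {0} = 0

/-- CVO, 60 lines.  Imports `Pool.Agent.Lib.MP_6947cd_al.B.CV`.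
PROOF.  As `CVM.tilt2` (same proof): `CVM.tilt_pi` with `CVM.tilt1 (lam k)` in the coordinate `k`, then
multiply by `∏ (1 + lam k)` as at the end of `specCV`. -/
def SpecCVO : Prop := ∀ (n : ℕ) (lam : Fin n → ℝ), (∀ k, 0 ≤ lam k) →
  ∀ F : (Fin n → ℂ) → ℝ≥0∞, Measurable F →
  ∫⁻ g, F g ∂(G n) = ENNReal.ofReal (∏ k, (1 + lam k)) *
    ∫⁻ h, F (fun k => (Real.sqrt (1 + lam k) : ℂ) * h k) *
      ENNReal.ofReal (Real.exp (-(∑ k, lam k * ‖h k‖ ^ 2) / 2)) ∂(G n)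

/-- JEO, 150 lines.  USES LOG, CVO.  Imports `B.Wick`, `B.GSum`, `B.Jen` (all in
`Pool.Agent.Lib.MP_6947cd_al`).
PROOF.  Let `D i u = W i u * sqrt (1 + lam u)`, so `∑ u ‖D i u‖^2 = ∑ u ‖W i u‖^2 (1 + lam u) = K i`.
`specWick n W univ` (with `permanent_submatrix_equiv` to remove the subtype) and CVO for
`F a = ∏ i, ofReal (‖∑ u, W i u * a u‖^2/2)`: `ofReal (per (W Wᴴ)).re = ofReal (∏ (1 + lam k)) *
∫⁻ h, ofReal (∏ i, ‖∑ u, D i u * h u‖^2/2) * ofReal (exp (-(∑ lam k ‖h k‖^2)/2)) ∂(G n)`.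
By `GSumM.map_lin` the law of `∑ u, D i u * h u` is the law of `sqrt (K i) * z` under `cg`; so it is
nonzero a.e. and by LOG `X_i h = log (‖∑ u, D i u * h u‖^2/2)` is integrable with the integral
`log (K i) - γ`.  With `X h = ∑ X_i h - (∑ lam k ‖h k‖^2)/2` the integrand is `ofReal (exp (X h))` a.e.
(`exp (log x) = x` for `x > 0`), and `∫ X = ∑ (log (K i) - γ) - ∑ lam k` (`∫ ‖z‖^2 ∂cg = 2`:
`WickM.val_pow 1`).  Jensen (`JenM.jensen`) and the logarithm. -/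
def SpecJEO : Prop := ∀ (n : ℕ) (W : Matrix (Fin n) (Fin n) ℂ) (lam K : Fin n → ℝ),
  (∀ k, 0 ≤ lam k) → (∀ i, K i = ∑ u, ‖W i u‖ ^ 2 * (1 + lam u)) → (∀ i, 0 < K i) →
  0 < (W * Wᴴ).permanent.re →
  (∑ i, (Real.log (K i) - Real.eulerMascheroniConstant)) - ∑ k, lam k + ∑ k, Real.log (1 + lam k)
    ≤ Real.log (W * Wᴴ).permanent.re

/-- SPC, 150 lines.  May import `Pool.Agent.Lib.MP_6947cd_al.B.Alg` (for `AlgM.tangent_log`).
PROOF.  Spectral theorem (see `Spectral.lean`, `B/Alg.lean`): `A = U diag(lam) Uᴴ`, `lam = eigenvalues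
≥ 0`, `W i k = U i k * sqrt (lam k)`.  `W Wᴴ = A`.  `∑ k ‖W i k‖^2 = a_ii = 1`; `∑ i ‖W i k‖^2 = lam k`
(columns of `U` are unit vectors), so `∑ lam k = n`; `∑ k ‖W i k‖^2 lam k = (A^2)_ii = ∑ j ‖A i j‖^2`
(`A` Hermitian).  Put `p_ik = ‖W i k‖^2` (`∑_k p_ik = 1`, `∑_k p_ik lam k = R i`, `∑_i p_ik = lam k`,
and `p_ik = 0` if `lam k = 0`); `R i ≥ ‖A i i‖^2 = 1`.
Logarithm: for each `i` tangent of `log (1 + l)/l` at `R i` (`AlgM.tangent_log`, in the form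
`log (1 + R i)/R i - J (l - R i) ≤ log (1 + l)/l` for `l > 0`), weights `p_ik`, sum over `k` gives
`log (1 + R i)/R i ≤ ∑ k p_ik log (1 + lam k)/lam k` (terms with `lam k = 0` are `0`); sum over `i`:
`∑ k log (1 + lam k)`.  Rank: in the same way `1/R i ≤ ∑_{k, lam k ≠ 0} p_ik / lam k`
(`1/l ≥ 2/R - l/R^2`), sum over `i` gives the number of the `k` with `lam k ≠ 0`, which is the rank
(`Matrix.IsHermitian.rank_eq_card_non_zero_eigs`). -/
def SpecSPC : Prop := ∀ (n : ℕ) (A : Matrix (Fin n) (Fin n) ℂ), A.PosSemidef → (∀ i, A i i = 1) →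
  ∃ (W : Matrix (Fin n) (Fin n) ℂ) (lam : Fin n → ℝ), (∀ k, 0 ≤ lam k) ∧ W * Wᴴ = A ∧
    ∑ k, lam k = n ∧ (∀ i, ∑ u, ‖W i u‖ ^ 2 * (1 + lam u) = 1 + ∑ j, ‖A i j‖ ^ 2) ∧
    (∀ i, 1 ≤ ∑ j, ‖A i j‖ ^ 2) ∧
    ∑ i, Real.log (1 + ∑ j, ‖A i j‖ ^ 2) / (∑ j, ‖A i j‖ ^ 2) ≤ ∑ k, Real.log (1 + lam k) ∧
    ∑ i, 1 / (∑ j, ‖A i j‖ ^ 2) ≤ (A.rank : ℝ)

/-- NUM, 110 lines.  May import `Pool.Agent.Lib.Interval.Gamma` (`gamma_lt : γ < 0.577216`).
PROOF.  Put `f x = (1 + 2 x) log (1 + 1/x)`, `x > 0`.  Each term is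
`2 ((1 + x) log (1 + 1/x) - 1 - γ) - log ((1 + 1/x)/2) = f x - 2 - 2 γ + log 2`.  `f` is convex:
`f' x = 2 log (1 + 1/x) - 1/x - 1/(1 + x)`, `f'' x = 1/(x^2 (1 + x)^2) > 0`; `f' x < 0` at `x = 2/9`
(`2 log (11/2) = 3.4095 < 9/2 + 9/11 = 5.318`).  So `f x ≥ f (2/9) + f' (2/9) (x - 2/9)`; sum over `i`:
`∑ f x_i ≥ n f (2/9) + f' (2/9) (∑ x_i - 2 n/9) ≥ n f (2/9)`, and `f (2/9) = (13/9) log (11/2) ≥ 2.46240`
(`log (11/2) ≥ 1.704744`, true value 1.7047481), `2 + 2 γ - log 2 < 2 + 1.154432 - 0.693147 = 2.461285`.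
(`log 11 - log 2`: use `Real.log_two_gt_d9`, `Real.log_two_lt_d9` and e.g.
`log (11/2) = 2 log 2 + log (11/8)`, `log (11/8) ≥ 0.31845`: series
`Real.hasSum_log_sub_log_of_abs_lt_one`, `log ((1+y)/(1-y)) ≥ 2 (y + y^3/3 + y^5/5)`, `y = 3/19`:
`2 (0.15789474 + 0.00131215 + 0.0000196) = 0.3184530`; `2 * 0.6931471803 + 0.318453 = 1.704747`.) -/
def SpecNUM : Prop := ∀ (n : ℕ) (x : Fin n → ℝ), (∀ i, 0 < x i) → 9 * ∑ i, x i ≤ 2 * n →
  0 ≤ ∑ i, (2 * ((1 + x i) * Real.log (1 + 1 / x i) - 1 - Real.eulerMascheroniConstant)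
    - Real.log ((1 + 1 / x i) / 2))

end CholLR
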